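import Pool.Agent.Run7.h748.Mob.Meas

/-!
# Every pair outside the exceptional set gives hyperbolic maps; existence
-/

set_option autoImplicit false

open MeasureTheory Metric Set Complex Filter Topology Polynomial
open scoped ENNReal Real ComplexConjugate

namespace Run7.h748.Mob

variable {P Q : ℂ[X]}

theorem good_of_not_bad {d : ℕ} (hd : 2 ≤ d) (hc : IsCoprime P Q)
    (hdeg : max P.natDegree Q.natDegree = d) (hQ0 : Q ≠ 0) (hW : wpol P Q ≠ 0) {s : ℝ} (hs : 0 < s)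
    {p q : ℂ} (hB : (p, q) ∉ Bad P Q d s) {a b c e : ℂ} (hdet : a * e - b * c ≠ 0)
    (hM : ∀ y, y ≠ 0 → s * (nn y * bb q) ≤ ‖crq y q‖ →
      ‖crq (mv a b c e y) p‖ ≤ s * (nn (mv a b c e y) * bb p)) :
    Captured (C a * P + C b * Q) (C c * P + C e * Q) := by
  have hp := Real.pi_pos
  have hb := bb_pos p
  unfold Bad at hB
  rw [mem_union, mem_union, mem_union, not_or, not_or, not_or] at hB
  obtain ⟨⟨⟨h1, h2⟩, h3⟩, h4⟩ := hB
  have h1' : s * bb p < 1 / 16 := not_le.1 h1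
  have h2' : am P Q s p + ENNReal.ofReal (s ^ 2) < ENNReal.ofReal (π / 2) := not_le.1 h2
  have h3' : tau P Q s p * (nn (FF P Q p) * bb q) < ‖crq (FF P Q p) q‖ := not_le.1 h3
  have h4' : ∀ v ∈ cvals P Q d, s * (nn v * bb q) < ‖crq v q‖ := by
    intro v hv
    by_contra hcon
    refine h4 ?_
    rw [mem_iUnion₂]
    exact ⟨v, hv, not_lt.1 hcon⟩
  have ham : am P Q s p ≠ ⊤ := by
    intro h
    rw [h, top_add] at h2'
    exact absurd h2' (by simp)
  set A : ℝ := (am P Q s p).toReal + s ^ 2 with hA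
  have hA0 : 0 < A := by
    have : 0 ≤ (am P Q s p).toReal := ENNReal.toReal_nonneg
    positivity
  have hAe : am P Q s p + ENNReal.ofReal (s ^ 2) = ENNReal.ofReal A := by
    rw [hA, ENNReal.ofReal_add ENNReal.toReal_nonneg (sq_nonneg _), ENNReal.ofReal_toReal ham]
  have hA2 : A ≤ π / 2 := by
    rw [hAe] at h2'
    exact ((ENNReal.ofReal_lt_ofReal_iff (by positivity)).1 h2').le
  have htau : tau P Q s p = 1936 * √A + s := rfl
  set r : ℝ := 4 * s * bb p ^ 2 with hr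
  have hr0 : 0 < r := by positivity
  refine dyn hd hc hdeg hs h1' ?_ ?_ ?_ hdet hM
  · intro z hz
    by_contra hcon
    rw [not_lt] at hcon
    rw [mem_closedBall, dist_eq_norm] at hz
    have hL : 0 ≤ 1936 * √A / r := by positivity
    have hg : ∀ t ∈ Icc (0 : ℝ) 1, gg P Q (p + t * (z - p)) ≤ 1936 * √A / r := by
      intro t ht
      refine sup_bound hc hQ0 hW hr0 hA0 hA2 ?_
      have hsub : ball (p + t * (z - p)) r ⊆ ball p (8 * s * bb p ^ 2) := by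
        refine ball_subset_ball' ?_
        rw [dist_eq_norm, add_sub_cancel_left, norm_mul, Complex.norm_real, Real.norm_eq_abs,
          abs_of_nonneg ht.1]
        have h5 : t * ‖z - p‖ ≤ 1 * r := mul_le_mul ht.2 hz (norm_nonneg _) zero_le_one
        have h6 : 8 * s * bb p ^ 2 = r + 1 * r := by rw [hr]; ring
        rw [h6]
        linarith
      calc ∫⁻ w in ball (p + t * (z - p)) r, ENNReal.ofReal (gg P Q w ^ 2)
          ≤ ∫⁻ w in ball p (8 * s * bb p ^ 2), ENNReal.ofReal (gg P Q w ^ 2) :=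
            lintegral_mono_set hsub
        _ = am P Q s p := am_eq h1'
        _ ≤ am P Q s p + ENNReal.ofReal (s ^ 2) := le_self_add
        _ = ENNReal.ofReal A := hAe
    have h5 := dist_le hc (z₀ := p) (z₁ := z) hL hg
    have h6 : ‖cx (FF P Q p) (FF P Q z)‖ ≤ 1936 * √A * (nn (FF P Q p) * nn (FF P Q z)) := by
      refine h5.trans ?_
      refine mul_le_mul_of_nonneg_right ?_ (mul_nonneg (nn_nonneg _) (nn_nonneg _))
      calc 1936 * √A / r * ‖z - p‖ ≤ 1936 * √A / r * r := mul_le_mul_of_nonneg_left hz hL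
        _ = 1936 * √A := div_mul_cancel₀ _ hr0.ne'
    rw [crq_eq, bb_eq] at hcon
    have h7 := cx_triangle (FF_ne hc z) h6 hcon
    rw [← crq_eq, ← bb_eq, ← htau] at h7
    exact absurd h3' (not_lt.2 h7)
  · intro z hz
    refine h4' _ ?_
    classical
    unfold cvals
    refine Finset.mem_insert_of_mem (Finset.mem_image.2 ⟨z, ?_, rfl⟩)
    rw [Multiset.mem_toFinset, mem_roots hW]
    exact hz
  · refine h4' _ ?_
    classical
    unfold cvals
    exact Finset.mem_insert_self _ _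

theorem nsqC (z : ℂ) : ((‖z‖ ^ 2 : ℝ) : ℂ) = z * conj z := by
  rw [Complex.mul_conj, Complex.normSq_eq_norm_sq]

/-- The explicit matrix. -/
theorem matrix_exists {s : ℝ} (hs : 0 < s) (p q : ℂ) : ∃ a b c e : ℂ, a * e - b * c = 1 ∧
    ‖a‖ ^ 2 + ‖b‖ ^ 2 + ‖c‖ ^ 2 + ‖e‖ ^ 2 = 1 / s ^ 2 + s ^ 2 ∧
    ∀ y, y ≠ 0 → s * (nn y * bb q) ≤ ‖crq y q‖ →
      ‖crq (mv a b c e y) p‖ ≤ s * (nn (mv a b c e y) * bb p) := by
  have hbp := bb_pos p
  have hbq := bb_pos q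
  have hbp2 : ((bb p ^ 2 : ℝ) : ℂ) = 1 + p * conj p := by
    rw [bb_sq, ← nsqC]
    push_cast
    rfl
  have hbq2 : ((bb q ^ 2 : ℝ) : ℂ) = 1 + q * conj q := by
    rw [bb_sq, ← nsqC]
    push_cast
    rfl
  obtain ⟨β, hβ0, hβ⟩ : ∃ β : ℝ, 0 < β ∧ β ^ 2 * (bb p ^ 2 * bb q ^ 2) = 1 := by
    refine ⟨(bb p * bb q)⁻¹, by positivity, ?_⟩
    field_simp
  have hβ1 : (β : ℂ) ^ 2 * ((1 + p * conj p) * (1 + q * conj q)) = 1 := by
    rw [← hbp2, ← hbq2]
    exact_mod_cast hβ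
  obtain ⟨α, hα0, hα⟩ : ∃ α : ℝ, 0 < α ∧ α * s = 1 := ⟨s⁻¹, by positivity, inv_mul_cancel₀ hs.ne'⟩
  have hαs : (α : ℂ) * s = 1 := by exact_mod_cast hα
  have hα2 : 1 / s ^ 2 = α ^ 2 := by
    have h1 : α = s⁻¹ := eq_inv_of_mul_eq_one_left hα
    rw [h1]
    field_simp
  refine ⟨β * (α * p - s * conj q), β * (-(α * q * p) - s), β * (α + s * conj q * conj p),
    β * (-(α * q) + s * conj p), ?_, ?_, ?_⟩
  · have : (β : ℂ) * (α * p - s * conj q) * (β * (-(α * q) + s * conj p)) -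
        β * (-(α * q * p) - s) * (β * (α + s * conj q * conj p)) =
        (α * s) * (β ^ 2 * ((1 + p * conj p) * (1 + q * conj q))) := by ring
    rw [this, hβ1, hαs, one_mul]
  · rw [hα2]
    have key : ((‖(β : ℂ) * (α * p - s * conj q)‖ ^ 2 + ‖(β : ℂ) * (-(α * q * p) - s)‖ ^ 2 +
        ‖(β : ℂ) * (α + s * conj q * conj p)‖ ^ 2 + ‖(β : ℂ) * (-(α * q) + s * conj p)‖ ^ 2 : ℝ) : ℂ) =
        ((α ^ 2 + s ^ 2 : ℝ) : ℂ) := by
      rw [ofReal_add, ofReal_add, ofReal_add, nsqC, nsqC, nsqC, nsqC]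
      simp only [map_mul, map_add, map_sub, map_neg, Complex.conj_conj, Complex.conj_ofReal]
      push_cast
      linear_combination ((α : ℂ) ^ 2 + s ^ 2) * hβ1
    exact_mod_cast key
  · intro y hy hyq
    set U : ℂ := crq y q with hU
    set V : ℂ := y.1 * conj q + y.2 with hV
    have hUV : ‖U‖ ^ 2 + ‖V‖ ^ 2 = nn y ^ 2 * bb q ^ 2 := by
      have : ((‖U‖ ^ 2 + ‖V‖ ^ 2 : ℝ) : ℂ) = ((nn y ^ 2 * bb q ^ 2 : ℝ) : ℂ) := by
        rw [ofReal_mul, hbq2, nn_sq, ofReal_add, ofReal_add, nsqC, nsqC, nsqC, nsqC, hU, hV, crq]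
        simp only [map_mul, map_add, map_sub, Complex.conj_conj]
        ring
      exact_mod_cast this
    set My := mv (β * (α * p - s * conj q)) (β * (-(α * q * p) - s)) (β * (α + s * conj q * conj p))
      (β * (-(α * q) + s * conj p)) y with hMy
    have e1 : crq My p = -(β * s * V * ((bb p ^ 2 : ℝ) : ℂ)) := by
      rw [hbp2, hMy, hV]
      simp only [crq, mv]
      ring
    have e1' : ‖crq My p‖ = β * s * ‖V‖ * bb p ^ 2 := by
      rw [e1, norm_neg, norm_mul, norm_mul, norm_mul, Complex.norm_real, Complex.norm_real,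
        Complex.norm_real, Real.norm_eq_abs, Real.norm_eq_abs, Real.norm_eq_abs, abs_of_pos hβ0,
        abs_of_pos hs, abs_of_pos (by positivity)]
    have e2 : nn My ^ 2 = β ^ 2 * bb p ^ 2 * (α ^ 2 * ‖U‖ ^ 2 + s ^ 2 * ‖V‖ ^ 2) := by
      have : ((nn My ^ 2 : ℝ) : ℂ) =
          ((β ^ 2 * bb p ^ 2 * (α ^ 2 * ‖U‖ ^ 2 + s ^ 2 * ‖V‖ ^ 2) : ℝ) : ℂ) := by
        rw [ofReal_mul, ofReal_mul, hbp2, ofReal_add, ofReal_mul, ofReal_mul, nn_sq, ofReal_add, nsqC, nsqC,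
          nsqC, nsqC, hU, hV, crq, hMy]
        simp only [mv, map_mul, map_add, map_sub, map_neg, Complex.conj_conj, Complex.conj_ofReal]
        push_cast
        ring
      exact_mod_cast this
    have h1 : (s * (nn y * bb q)) ^ 2 ≤ ‖U‖ ^ 2 := by
      refine pow_le_pow_left₀ ?_ hyq 2
      exact mul_nonneg hs.le (mul_nonneg (nn_nonneg _) hbq.le)
    have h2 : nn y ^ 2 * bb q ^ 2 ≤ α ^ 2 * ‖U‖ ^ 2 := by
      have h3 := mul_le_mul_of_nonneg_left h1 (sq_nonneg α)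
      have h4 : α ^ 2 * (s * (nn y * bb q)) ^ 2 = (α * s) ^ 2 * (nn y ^ 2 * bb q ^ 2) := by ring
      rw [h4, hα, one_pow, one_mul] at h3
      exact h3
    have h5 : ‖V‖ ^ 2 ≤ α ^ 2 * ‖U‖ ^ 2 + s ^ 2 * ‖V‖ ^ 2 := by
      nlinarith [sq_nonneg ‖U‖, sq_nonneg (s * ‖V‖)]
    rw [e1']
    refine (pow_le_pow_iff_left₀ (by positivity)
      (mul_nonneg hs.le (mul_nonneg (nn_nonneg _) hbp.le)) (two_ne_zero)).1 ?_
    have h6 : (s * (nn My * bb p)) ^ 2 = s ^ 2 * bb p ^ 2 * nn My ^ 2 := by ring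
    rw [h6, e2]
    have h7 : (β * s * ‖V‖ * bb p ^ 2) ^ 2 = (β * s * bb p ^ 2) ^ 2 * ‖V‖ ^ 2 := by ring
    have h8 : s ^ 2 * bb p ^ 2 * (β ^ 2 * bb p ^ 2 * (α ^ 2 * ‖U‖ ^ 2 + s ^ 2 * ‖V‖ ^ 2)) =
      (β * s * bb p ^ 2) ^ 2 * (α ^ 2 * ‖U‖ ^ 2 + s ^ 2 * ‖V‖ ^ 2) := by ring
    rw [h7, h8]
    exact mul_le_mul_of_nonneg_left h5 (sq_nonneg _)

theorem Q_ne {d : ℕ} (hd : 2 ≤ d) (hc : IsCoprime P Q) (hdeg : max P.natDegree Q.natDegree = d) :
    Q ≠ 0 := by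
  intro h
  rw [h] at hc hdeg
  have := natDegree_eq_zero_of_isUnit (isCoprime_zero_right.1 hc)
  rw [this] at hdeg
  simp at hdeg
  omega

theorem deg_eq {d : ℕ} (hd : 2 ≤ d) (hc : IsCoprime P Q) (hdeg : max P.natDegree Q.natDegree = d)
    {a b c e : ℂ} (hdet : a * e - b * c ≠ 0) :
    max (C a * P + C b * Q).natDegree (C c * P + C e * Q).natDegree = d := by
  have hP : P.natDegree ≤ d := by rw [← hdeg]; exact le_max_left _ _
  have hQ : Q.natDegree ≤ d := by rw [← hdeg]; exact le_max_right _ _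
  have hle : ∀ u v : ℂ, (C u * P + C v * Q).natDegree ≤ d := fun u v =>
    (natDegree_add_le _ _).trans (max_le ((natDegree_C_mul_le _ _).trans hP)
      ((natDegree_C_mul_le _ _).trans hQ))
  refine le_antisymm (max_le (hle a b) (hle c e)) ?_
  have hne : ((P.coeff d, Q.coeff d) : ℂ × ℂ) ≠ 0 := by
    classical
    refine cvals_ne hc hdeg (by omega) _ ?_
    unfold cvals
    exact Finset.mem_insert_self _ _
  have h1 : mv a b c e (P.coeff d, Q.coeff d) ≠ 0 := Pool.Agent.R239.Fat.lin_ne hdet hne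
  by_contra hcon
  rw [not_le, max_lt_iff] at hcon
  apply h1
  have h2 := coeff_eq_zero_of_natDegree_lt hcon.1
  have h3 := coeff_eq_zero_of_natDegree_lt hcon.2
  rw [coeff_add, coeff_C_mul, coeff_C_mul] at h2 h3
  exact Prod.ext h2 h3

theorem coprime_mob (hc : IsCoprime P Q) {a b c e : ℂ} (hdet : a * e - b * c ≠ 0) :
    IsCoprime (C a * P + C b * Q) (C c * P + C e * Q) := by
  obtain ⟨u, v, huv⟩ := hc
  refine ⟨C (a * e - b * c)⁻¹ * (C e * u - C c * v), C (a * e - b * c)⁻¹ * (C a * v - C b * u), ?_⟩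
  have h1 : C (a * e - b * c)⁻¹ * (C e * u - C c * v) * (C a * P + C b * Q) +
      C (a * e - b * c)⁻¹ * (C a * v - C b * u) * (C c * P + C e * Q) =
      C (a * e - b * c)⁻¹ * (C a * C e - C b * C c) * (u * P + v * Q) := by ring
  rw [h1, huv, mul_one, ← C_mul, ← C_mul, ← C_sub, ← C_mul, inv_mul_cancel₀ hdet, C_1]

/-- the exceptional pairs have small measure -/
theorem main1 {d : ℕ} (hd : 2 ≤ d) (hc : IsCoprime P Q) (hdeg : max P.natDegree Q.natDegree = d)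
    {s : ℝ} (hs : 0 < s) : (sph.prod sph) {x : ℂ × ℂ | ¬ ∀ a b c e : ℂ, a * e - b * c ≠ 0 →
      (∀ y, y ≠ 0 → s * (nn y * bb x.2) ≤ ‖crq y x.2‖ →
        ‖crq (mv a b c e y) x.1‖ ≤ s * (nn (mv a b c e y) * bb x.1)) →
      Captured (C a * P + C b * Q) (C c * P + C e * Q)} ≤
        ENNReal.ofReal (10 ^ 12 * π ^ 3 * d * s ^ 2) := by
  have hQ0 := Q_ne hd hc hdeg
  have hW : wpol P Q ≠ 0 := Pool.Agent.R239.Fat.wronskian_ne hc (by omega)
  refine (measure_mono ?_).trans (bad_meas (by omega) hc hdeg hQ0 hW hs)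
  rintro ⟨p, q⟩ hx
  by_contra hcon
  refine hx fun a b c e h1 h2 => ?_
  exact good_of_not_bad hd hc hdeg hQ0 hW hs hcon h1 h2

/-- existence -/
theorem main2 {d : ℕ} (hd : 2 ≤ d) (hc : IsCoprime P Q) (hdeg : max P.natDegree Q.natDegree = d) :
    ∃ a b c e : ℂ, a * e - b * c = 1 ∧ ‖a‖ ^ 2 + ‖b‖ ^ 2 + ‖c‖ ^ 2 + ‖e‖ ^ 2 ≤ 10 ^ 13 * d ∧
      Captured (C a * P + C b * Q) (C c * P + C e * Q) := by
  have hp := Real.pi_pos
  have hp4 := Real.pi_lt_d2
  have hQ0 := Q_ne hd hc hdeg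
  have hW : wpol P Q ≠ 0 := Pool.Agent.R239.Fat.wronskian_ne hc (by omega)
  have hd0 : (2 : ℝ) ≤ d := by exact_mod_cast hd
  obtain ⟨s, hs, hs2⟩ : ∃ s : ℝ, 0 < s ∧ s ^ 2 = 1 / (4 * 10 ^ 12 * d) := by
    refine ⟨√(1 / (4 * 10 ^ 12 * d)), Real.sqrt_pos.2 (by positivity), Real.sq_sqrt (by positivity)⟩
  have hlt : (sph.prod sph) (Bad P Q d s) < (sph.prod sph) univ := by
    have h1 : (sph.prod sph) univ = ENNReal.ofReal (π ^ 2) := by
      rw [← univ_prod_univ, Measure.prod_prod, sph_univ, ← ENNReal.ofReal_mul hp.le, sq]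
    rw [h1]
    refine (bad_meas (by omega) hc hdeg hQ0 hW hs).trans_lt ?_
    refine (ENNReal.ofReal_lt_ofReal_iff (by positivity)).2 ?_
    rw [hs2]
    have h2 : 10 ^ 12 * π ^ 3 * d * (1 / (4 * 10 ^ 12 * d)) = π ^ 2 * (π / 4) := by
      field_simp
    rw [h2]
    have h3 : π / 4 < 1 := by linarith
    have h4 : 0 < π ^ 2 := by positivity
    nlinarith
  obtain ⟨⟨p, q⟩, hpq⟩ : ∃ x : ℂ × ℂ, x ∉ Bad P Q d s := by
    by_contra hcon
    push Not at hcon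
    have : Bad P Q d s = univ := eq_univ_of_forall hcon
    rw [this] at hlt
    exact lt_irrefl _ hlt
  obtain ⟨a, b, c, e, h1, h2, h3⟩ := matrix_exists hs p q
  refine ⟨a, b, c, e, h1, ?_, good_of_not_bad hd hc hdeg hQ0 hW hs hpq (by rw [h1]; exact one_ne_zero) h3⟩
  rw [h2, hs2, one_div_one_div]
  have h4 : 1 / (4 * 10 ^ 12 * (d : ℝ)) ≤ 1 := by
    rw [div_le_one (by positivity)]
    nlinarith
  nlinarith

end Run7.h748.Mob
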