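import Pool.Agent.Run7.h748.Mob.Sph
import Pool.Agent.Helper772.MV.Area

/-!
# The spherical area of a rational map
-/

set_option autoImplicit false

open MeasureTheory Metric Set Complex Filter Topology Polynomial
open scoped ENNReal Real

namespace Run7.h748.Mob

/-- the vector of the values -/
noncomputable def FF (P Q : ℂ[X]) (z : ℂ) : ℂ × ℂ := (P.eval z, Q.eval z)

/-- the Wronskian -/
noncomputable def wpol (P Q : ℂ[X]) : ℂ[X] := derivative P * Q - P * derivative Q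

/-- the spherical derivative -/
noncomputable def gg (P Q : ℂ[X]) (z : ℂ) : ℝ := ‖(wpol P Q).eval z‖ / nn (FF P Q z) ^ 2

variable {P Q : ℂ[X]}

theorem FF_ne (hc : IsCoprime P Q) (z : ℂ) : FF P Q z ≠ 0 := by
  intro h
  obtain ⟨u, v, h1⟩ := hc
  have h2 : P.eval z = 0 := congrArg Prod.fst h
  have h3 : Q.eval z = 0 := congrArg Prod.snd h
  have h4 := congrArg (eval z) h1
  simp [h2, h3] at h4

theorem FF_cont (P Q : ℂ[X]) : Continuous (FF P Q) :=
  P.continuous.prodMk Q.continuous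

theorem gg_nonneg (P Q : ℂ[X]) (z : ℂ) : 0 ≤ gg P Q z := by unfold gg; positivity

theorem gg_cont (hc : IsCoprime P Q) : Continuous (gg P Q) := by
  unfold gg
  refine (wpol P Q).continuous.norm.div ((nn_cont.comp (FF_cont P Q)).pow 2) fun z => ?_
  exact (pow_pos (nn_pos (FF_ne hc z)) 2).ne'

theorem hasDerivAt_quot {z : ℂ} (hQ : Q.eval z ≠ 0) :
    HasDerivAt (fun z => P.eval z / Q.eval z) ((wpol P Q).eval z / (Q.eval z) ^ 2) z := by
  have h := (P.hasDerivAt z).div (Q.hasDerivAt z) hQ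
  refine h.congr_deriv ?_
  simp [wpol]

theorem dens_eq {z : ℂ} (hQ : Q.eval z ≠ 0) :
    ‖deriv (fun z => P.eval z / Q.eval z) z‖ₑ ^ 2 *
      ENNReal.ofReal (1 / (1 + ‖P.eval z / Q.eval z‖ ^ 2) ^ 2) = ENNReal.ofReal (gg P Q z ^ 2) := by
  have hQ' : 0 < ‖Q.eval z‖ := norm_pos_iff.2 hQ
  rw [(hasDerivAt_quot (P := P) hQ).deriv, ← ofReal_norm, ← ENNReal.ofReal_pow (norm_nonneg _),
    ← ENNReal.ofReal_mul (by positivity)]
  congr 1
  have h1 : nn (FF P Q z) ^ 2 = ‖P.eval z‖ ^ 2 + ‖Q.eval z‖ ^ 2 := nn_sq _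
  have h2 : 0 < ‖P.eval z‖ ^ 2 + ‖Q.eval z‖ ^ 2 := by positivity
  rw [gg, h1, norm_div, norm_pow, norm_div]
  field_simp
  ring

theorem quot_meas (P Q : ℂ[X]) : Measurable fun z => P.eval z / Q.eval z :=
  P.continuous.measurable.div Q.continuous.measurable

/-- the image measure of the spherical area -/
noncomputable def im (P Q : ℂ[X]) (D : Set ℂ) : Measure ℂ :=
  Measure.map (fun z => P.eval z / Q.eval z)
    ((volume.restrict D).withDensity fun z => ‖deriv (fun z => P.eval z / Q.eval z) z‖ₑ ^ 2)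

theorem deriv_meas (P Q : ℂ[X]) :
    Measurable fun z => ‖deriv (fun z => P.eval z / Q.eval z) z‖ₑ ^ 2 :=
  ((measurable_deriv _).enorm).pow_const 2

theorem im_apply {D B : Set ℂ} (hD : MeasurableSet D) (hB : MeasurableSet B)
    (h0 : ∀ z ∈ D, Q.eval z ≠ 0 ∧ (wpol P Q).eval z ≠ 0) :
    im P Q D B = ∫⁻ w in B, (∑' z : {z : ℂ // z ∈ D ∧ P.eval z / Q.eval z = w}, (1 : ℝ≥0∞)) := by
  have h1 := MeanVal.Area.af_main (fun z => P.eval z / Q.eval z) D hD
    (fun z hz => by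
      have := hasDerivAt_quot (P := P) (h0 z hz).1
      rwa [this.deriv]) (fun z hz => by
      rw [(hasDerivAt_quot (P := P) (h0 z hz).1).deriv]
      exact div_ne_zero (h0 z hz).2 (pow_ne_zero 2 (h0 z hz).1)) B hB
  rw [h1, im, Measure.map_apply (quot_meas P Q) hB, withDensity_apply _ (quot_meas P Q hB),
    Measure.restrict_restrict (quot_meas P Q hB), inter_comm]

theorem lintegral_im {D : Set ℂ} (h0 : ∀ z ∈ D, Q.eval z ≠ 0 ∧ (wpol P Q).eval z ≠ 0)
    (hD : MeasurableSet D) :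
    ∫⁻ w, ENNReal.ofReal (1 / (1 + ‖w‖ ^ 2) ^ 2) ∂(im P Q D) =
      ∫⁻ z in D, ENNReal.ofReal (gg P Q z ^ 2) := by
  have h1 := lintegral_withDensity_eq_lintegral_mul (volume.restrict D) (deriv_meas P Q)
    (dens_meas.comp (quot_meas P Q))
  simp only [Function.comp_def] at h1
  rw [im, lintegral_map dens_meas (quot_meas P Q), h1]
  refine setLIntegral_congr_fun hD fun z hz => ?_
  exact dens_eq (h0 z hz).1

theorem count_le {d : ℕ} (hP : P.natDegree ≤ d) (hQ : Q.natDegree ≤ d) (hW : wpol P Q ≠ 0) (D : Set ℂ)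
    (h0 : ∀ z ∈ D, Q.eval z ≠ 0) (w : ℂ) :
    (∑' z : {z : ℂ // z ∈ D ∧ P.eval z / Q.eval z = w}, (1 : ℝ≥0∞)) ≤ d := by
  classical
  have hne : P - C w * Q ≠ 0 := by
    intro h
    apply hW
    have h1 : P = C w * Q := sub_eq_zero.1 h
    rw [wpol, h1]
    simp
    ring
  have hdeg : (P - C w * Q).natDegree ≤ d :=
    (natDegree_sub_le _ _).trans (max_le hP ((natDegree_C_mul_le _ _).trans hQ))
  rw [ENNReal.tsum_one]
  have hsub : {z : ℂ | z ∈ D ∧ P.eval z / Q.eval z = w} ⊆ ((P - C w * Q).roots.toFinset : Set ℂ) := by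
    rintro z ⟨hz, hzw⟩
    rw [Finset.mem_coe, Multiset.mem_toFinset, mem_roots hne, IsRoot, eval_sub, eval_mul, eval_C]
    rw [div_eq_iff (h0 z hz)] at hzw
    rw [hzw]
    ring
  have h2 : ENat.card {z : ℂ // z ∈ D ∧ P.eval z / Q.eval z = w} ≤ d := by
    calc ENat.card {z : ℂ // z ∈ D ∧ P.eval z / Q.eval z = w}
        = Set.encard {z : ℂ | z ∈ D ∧ P.eval z / Q.eval z = w} := rfl
      _ ≤ Set.encard ((P - C w * Q).roots.toFinset : Set ℂ) := Set.encard_le_encard hsub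
      _ = (P - C w * Q).roots.toFinset.card := Set.encard_coe_eq_coe_finsetCard _
      _ ≤ d := by
        exact_mod_cast (Multiset.toFinset_card_le _).trans ((card_roots' _).trans hdeg)
  exact_mod_cast (ENat.toENNReal_le.2 h2)

/-- the exceptional points -/
noncomputable def exc (P Q : ℂ[X]) : Finset ℂ := by
  classical
  exact (Q * wpol P Q).roots.toFinset

theorem mem_exc (hQ : Q ≠ 0) (hW : wpol P Q ≠ 0) {z : ℂ} :
    z ∈ exc P Q ↔ ¬ (Q.eval z ≠ 0 ∧ (wpol P Q).eval z ≠ 0) := by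
  classical
  rw [exc, Multiset.mem_toFinset, mem_roots (mul_ne_zero hQ hW), IsRoot, eval_mul, mul_eq_zero,
    not_and_or, not_not, not_not]

/-- **The total spherical area.** -/
theorem total {d : ℕ} (hP : P.natDegree ≤ d) (hQ : Q.natDegree ≤ d) (hQ0 : Q ≠ 0) (hW : wpol P Q ≠ 0) :
    ∫⁻ z, ENNReal.ofReal (gg P Q z ^ 2) ≤ ENNReal.ofReal (d * π) := by
  set D : Set ℂ := ((exc P Q : Finset ℂ) : Set ℂ)ᶜ with hD
  have hDm : MeasurableSet D := (exc P Q).measurableSet.compl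
  have h0 : ∀ z ∈ D, Q.eval z ≠ 0 ∧ (wpol P Q).eval z ≠ 0 := fun z hz => by
    by_contra hcon
    exact hz ((mem_exc hQ0 hW).2 hcon)
  have h1 : ∫⁻ z, ENNReal.ofReal (gg P Q z ^ 2) = ∫⁻ z in D, ENNReal.ofReal (gg P Q z ^ 2) := by
    rw [← setLIntegral_univ]
    refine setLIntegral_congr ?_
    have h2 : (D : Set ℂ) =ᵐ[volume] univ := by
      rw [ae_eq_univ, hD, compl_compl]
      exact (exc P Q).measure_zero _
    exact h2.symm
  have h3 : im P Q D ≤ (d : ℝ≥0∞) • volume := by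
    refine Measure.le_iff.2 fun B hB => ?_
    rw [im_apply hDm hB h0, Measure.smul_apply, smul_eq_mul, ← setLIntegral_const]
    exact lintegral_mono fun w => count_le hP hQ hW D (fun z hz => (h0 z hz).1) w
  have h4 : ∫⁻ w : ℂ, ENNReal.ofReal (1 / (1 + ‖w‖ ^ 2) ^ 2) = ENNReal.ofReal π := by
    rw [← sph_univ, sph, withDensity_apply _ MeasurableSet.univ, setLIntegral_univ]
  rw [h1, ← lintegral_im h0 hDm]
  calc ∫⁻ w, ENNReal.ofReal (1 / (1 + ‖w‖ ^ 2) ^ 2) ∂(im P Q D)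
      ≤ ∫⁻ w, ENNReal.ofReal (1 / (1 + ‖w‖ ^ 2) ^ 2) ∂((d : ℝ≥0∞) • volume) :=
        lintegral_mono' h3 le_rfl
    _ = ENNReal.ofReal (d * π) := by
        rw [lintegral_smul_measure, h4, ENNReal.ofReal_mul (by positivity), ENNReal.ofReal_natCast,
          smul_eq_mul]

/-- **The area of the image.** -/
theorem image_area (hQ0 : Q ≠ 0) (hW : wpol P Q ≠ 0) {U : Set ℂ} (hU : IsOpen U) :
    sph {w | ∃ z ∈ U, Q.eval z ≠ 0 ∧ P.eval z = w * Q.eval z} ≤
      ∫⁻ z in U, ENNReal.ofReal (gg P Q z ^ 2) := by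
  classical
  set D : Set ℂ := U ∩ ((exc P Q : Finset ℂ) : Set ℂ)ᶜ with hD
  have hDo : IsOpen D := hU.inter (exc P Q).finite_toSet.isClosed.isOpen_compl
  have h0 : ∀ z ∈ D, Q.eval z ≠ 0 ∧ (wpol P Q).eval z ≠ 0 := fun z hz => by
    by_contra hcon
    exact hz.2 ((mem_exc hQ0 hW).2 hcon)
  set f : ℂ → ℂ := fun z => P.eval z / Q.eval z with hf
  have hopen : IsOpen (f '' D) := by
    rw [isOpen_iff_mem_nhds]
    rintro w ⟨z, hz, rfl⟩
    have h1 : HasStrictDerivAt f ((wpol P Q).eval z / (Q.eval z) ^ 2) z := by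
      have hd : ContDiffAt ℂ 1 f z :=
        (P.differentiable.contDiff.contDiffAt).div (Q.differentiable.contDiff.contDiffAt) (h0 z hz).1
      have h2 := hd.hasStrictDerivAt (by norm_num)
      rwa [(hasDerivAt_quot (P := P) (h0 z hz).1).deriv] at h2
    rw [← h1.map_nhds_eq (div_ne_zero (h0 z hz).2 (pow_ne_zero 2 (h0 z hz).1))]
    exact Filter.image_mem_map (hDo.mem_nhds hz)
  set E : Finset ℂ := (exc P Q).image f with hE
  have hsub : {w | ∃ z ∈ U, Q.eval z ≠ 0 ∧ P.eval z = w * Q.eval z} ⊆ f '' D ∪ (E : Set ℂ) := by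
    rintro w ⟨z, hz, hq, hw⟩
    have hfz : f z = w := by
      rw [hf]
      simp only
      rw [div_eq_iff hq, hw]
    by_cases he : z ∈ exc P Q
    · right
      rw [hE, Finset.coe_image]
      exact ⟨z, he, hfz⟩
    · left
      exact ⟨z, ⟨hz, he⟩, hfz⟩
  have hE0 : sph (E : Set ℂ) = 0 := by
    have h1 : (sph : Measure ℂ) ≪ volume := withDensity_absolutelyContinuous _ _
    exact h1 (E.measure_zero _)
  have h3 : volume.restrict (f '' D) ≤ im P Q D := by
    refine Measure.le_iff.2 fun B hB => ?_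
    rw [im_apply hDo.measurableSet hB h0, Measure.restrict_apply hB]
    calc volume (B ∩ f '' D) = ∫⁻ w in B, (f '' D).indicator (fun _ => (1 : ℝ≥0∞)) w := by
          rw [lintegral_indicator hopen.measurableSet, setLIntegral_one,
            Measure.restrict_apply hopen.measurableSet, inter_comm]
      _ ≤ _ := by
          refine lintegral_mono fun w => ?_
          by_cases hw : w ∈ f '' D
          · rw [indicator_of_mem hw]
            obtain ⟨z, hz, hzw⟩ := hw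
            exact ENNReal.le_tsum (f := fun _ : {z : ℂ // z ∈ D ∧ P.eval z / Q.eval z = w} =>
              (1 : ℝ≥0∞)) ⟨z, hz, hzw⟩
          · rw [indicator_of_notMem hw]
            exact zero_le
  calc sph {w | ∃ z ∈ U, Q.eval z ≠ 0 ∧ P.eval z = w * Q.eval z}
      ≤ sph (f '' D ∪ (E : Set ℂ)) := measure_mono hsub
    _ ≤ sph (f '' D) + sph (E : Set ℂ) := measure_union_le _ _
    _ = ∫⁻ w in f '' D, ENNReal.ofReal (1 / (1 + ‖w‖ ^ 2) ^ 2) := by
        rw [hE0, add_zero, sph, withDensity_apply _ hopen.measurableSet]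
    _ ≤ ∫⁻ w, ENNReal.ofReal (1 / (1 + ‖w‖ ^ 2) ^ 2) ∂(im P Q D) := lintegral_mono' h3 le_rfl
    _ = ∫⁻ z in D, ENNReal.ofReal (gg P Q z ^ 2) := lintegral_im h0 hDo.measurableSet
    _ ≤ _ := lintegral_mono_set inter_subset_left

end Run7.h748.Mob
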