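import Pool.Agent.Run7.h748.Mob.Omit

/-!
# Chordal distances
-/

set_option autoImplicit false

open MeasureTheory Metric Set Complex Filter Topology Polynomial
open scoped ENNReal Real

namespace Run7.h748.Mob

variable {P Q : ℂ[X]}

/-- the cross product -/
noncomputable def cx (x y : ℂ × ℂ) : ℂ := x.1 * y.2 - x.2 * y.1

theorem crq_eq (y : ℂ × ℂ) (q : ℂ) : crq y q = cx y (q, 1) := by
  simp only [crq, cx]
  ring

theorem bb_eq (q : ℂ) : bb q = nn (q, 1) := by
  simp only [bb, nn, norm_one, one_pow]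
  rw [add_comm]

theorem cx_comm (x y : ℂ × ℂ) : cx x y = -cx y x := by
  simp only [cx]
  ring

theorem nn_smul (a : ℂ) (y : ℂ × ℂ) : nn (a • y) = ‖a‖ * nn y := by
  have h : (nn (a • y)) ^ 2 = (‖a‖ * nn y) ^ 2 := by
    rw [mul_pow, nn_sq, nn_sq]
    simp only [Prod.smul_fst, Prod.smul_snd, smul_eq_mul, norm_mul]
    ring
  exact (pow_left_inj₀ (nn_nonneg _) (mul_nonneg (norm_nonneg _) (nn_nonneg _)) (by norm_num)).1 h

theorem nn_add (x y : ℂ × ℂ) : nn (x + y) ≤ nn x + nn y := by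
  have e : ∀ z : ℂ × ℂ, nn z = ‖WithLp.toLp 2 z‖ := fun z => by
    rw [WithLp.prod_norm_eq_of_L2]
    rfl
  rw [e, e, e, WithLp.toLp_add]
  exact norm_add_le _ _

/-- the triangle inequality for the chordal distance -/
theorem cx_triangle {a b c : ℂ × ℂ} {s t : ℝ} (hb : b ≠ 0) (h1 : ‖cx a b‖ ≤ s * (nn a * nn b))
    (h2 : ‖cx b c‖ ≤ t * (nn b * nn c)) : ‖cx a c‖ ≤ (s + t) * (nn a * nn c) := by
  have hn := nn_pos hb
  have e : cx a c • b = cx b c • a + cx a b • c := by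
    refine Prod.ext ?_ ?_
    · simp only [cx, Prod.smul_fst, smul_eq_mul, Prod.fst_add]
      ring
    · simp only [cx, Prod.smul_snd, smul_eq_mul, Prod.snd_add]
      ring
  have h3 : ‖cx a c‖ * nn b ≤ ‖cx b c‖ * nn a + ‖cx a b‖ * nn c := by
    calc ‖cx a c‖ * nn b = nn (cx a c • b) := (nn_smul _ _).symm
      _ = nn (cx b c • a + cx a b • c) := by rw [e]
      _ ≤ nn (cx b c • a) + nn (cx a b • c) := nn_add _ _
      _ = _ := by rw [nn_smul, nn_smul]
  have h4 : ‖cx b c‖ * nn a ≤ t * (nn b * nn c) * nn a := mul_le_mul_of_nonneg_right h2 (nn_nonneg _)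
  have h5 : ‖cx a b‖ * nn c ≤ s * (nn a * nn b) * nn c := mul_le_mul_of_nonneg_right h1 (nn_nonneg _)
  have h6 : ‖cx a c‖ * nn b ≤ ((s + t) * (nn a * nn c)) * nn b := by
    calc ‖cx a c‖ * nn b ≤ _ := h3
      _ ≤ t * (nn b * nn c) * nn a + s * (nn a * nn b) * nn c := add_le_add h4 h5
      _ = _ := by ring
  exact le_of_mul_le_mul_right h6 hn

theorem cx_FF_deriv (P Q : ℂ[X]) (z : ℂ) :
    cx (FF P Q z) (FF (derivative P) (derivative Q) z) = -(wpol P Q).eval z := by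
  simp only [cx, FF, wpol, eval_sub, eval_mul]
  ring

theorem le_of_sq_le_sq' {a b : ℝ} (h : a ^ 2 ≤ b ^ 2) (hb : 0 ≤ b) : a ≤ b :=
  le_of_sq_le_sq h hb

/-- The chordal distance of the images of two points. -/
theorem dist_le (hc : IsCoprime P Q) {z₀ z₁ : ℂ} {L : ℝ} (hL : 0 ≤ L)
    (h : ∀ t ∈ Icc (0 : ℝ) 1, gg P Q (z₀ + t * (z₁ - z₀)) ≤ L) :
    ‖cx (FF P Q z₀) (FF P Q z₁)‖ ≤ L * ‖z₁ - z₀‖ * (nn (FF P Q z₀) * nn (FF P Q z₁)) := by
  set c : ℂ × ℂ := FF P Q z₀ with hcd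
  have hc0 : c ≠ 0 := FF_ne hc z₀
  have hnc := nn_pos hc0
  set K : ℝ := L * ‖z₁ - z₀‖ with hK
  have hK0 : 0 ≤ K := mul_nonneg hL (norm_nonneg _)
  set γ : ℝ → ℂ := fun t => z₀ + t * (z₁ - z₀) with hγ
  have hγd : ∀ t, HasDerivAt γ (z₁ - z₀) t := by
    intro t
    have h1 : HasDerivAt (fun t : ℝ => (t : ℂ)) 1 t := Complex.ofRealCLM.hasDerivAt
    have h2 := (h1.mul_const (z₁ - z₀)).const_add z₀
    rwa [one_mul] at h2
  set p : ℝ → ℂ := fun t => P.eval (γ t) with hp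
  set q : ℝ → ℂ := fun t => Q.eval (γ t) with hq
  set p' : ℝ → ℂ := fun t => (derivative P).eval (γ t) * (z₁ - z₀) with hp'
  set q' : ℝ → ℂ := fun t => (derivative Q).eval (γ t) * (z₁ - z₀) with hq'
  have hpd : ∀ t, HasDerivAt p (p' t) t := fun t => (P.hasDerivAt (γ t)).comp_of_eq t (hγd t) rfl
  have hqd : ∀ t, HasDerivAt q (q' t) t := fun t => (Q.hasDerivAt (γ t)).comp_of_eq t (hγd t) rfl
  -- squares of norms
  have nsq : ∀ (f f' : ℝ → ℂ), (∀ t, HasDerivAt f (f' t) t) → ∀ t,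
      HasDerivAt (fun t => ‖f t‖ ^ 2) (2 * ((starRingEnd ℂ) (f t) * f' t).re) t := by
    intro f f' hf t
    have h1 := (hf t).norm_sq
    refine h1.congr_deriv ?_
    rw [real_inner_eq_re_inner (𝕜 := ℂ)]
    simp [mul_comm]
  set u : ℝ → ℂ := fun t => c.1 * q t - c.2 * p t with hu
  set u' : ℝ → ℂ := fun t => c.1 * q' t - c.2 * p' t with hu'
  have hud : ∀ t, HasDerivAt u (u' t) t := fun t =>
    ((hqd t).const_mul c.1).sub ((hpd t).const_mul c.2)
  set n : ℝ → ℝ := fun t => ‖p t‖ ^ 2 + ‖q t‖ ^ 2 with hn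
  have hn0 : ∀ t, 0 < n t := by
    intro t
    have := nn_pos (FF_ne hc (γ t))
    have h2 := nn_sq (FF P Q (γ t))
    have : n t = nn (FF P Q (γ t)) ^ 2 := h2.symm
    rw [this]
    positivity
  set n' : ℝ → ℝ := fun t => 2 * ((starRingEnd ℂ) (p t) * p' t).re + 2 * ((starRingEnd ℂ) (q t) * q' t).re
  have hnd : ∀ t, HasDerivAt n (n' t) t := fun t => (nsq p p' hpd t).add (nsq q q' hqd t)
  set C : ℝ := nn c ^ 2 with hC
  have hC0 : 0 < C := by positivity
  set φ : ℝ → ℝ := fun t => ‖u t‖ ^ 2 / (C * n t) with hφ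
  set φ' : ℝ → ℝ := fun t => (2 * ((starRingEnd ℂ) (u t) * u' t).re * (C * n t) -
    ‖u t‖ ^ 2 * (C * n' t)) / (C * n t) ^ 2 with hφ'
  have hφd : ∀ t, HasDerivAt φ (φ' t) t := fun t =>
    (nsq u u' hud t).div ((hnd t).const_mul C) (mul_pos hC0 (hn0 t)).ne'
  have hφ0 : ∀ t, 0 ≤ φ t := fun t => div_nonneg (sq_nonneg _) (mul_pos hC0 (hn0 t)).le
  -- the differential inequality
  have hineq : ∀ t ∈ Icc (0 : ℝ) 1, φ' t ≤ 2 * K * √(φ t) := by
    intro t ht
    set cr : ℂ := p t * q' t - q t * p' t with hcr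
    set e : ℂ := c.1 * (starRingEnd ℂ) (p t) + c.2 * (starRingEnd ℂ) (q t) with he
    have hnt := hn0 t
    have hsn : 0 < √(n t) := Real.sqrt_pos.2 hnt
    have hsn2 : √(n t) ^ 2 = n t := Real.sq_sqrt hnt.le
    have ncx : ((n t : ℝ) : ℂ) = (starRingEnd ℂ) (p t) * p t + (starRingEnd ℂ) (q t) * q t := by
      simp only [hn]
      push_cast
      rw [Complex.conj_mul', Complex.conj_mul']
    have key : ((n t : ℝ) : ℂ) * u' t =
        ((starRingEnd ℂ) (p t) * p' t + (starRingEnd ℂ) (q t) * q' t) * u t + cr * e := by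
      rw [ncx, hcr, he]
      simp only [hu, hu']
      ring
    have h1 : n t * ((starRingEnd ℂ) (u t) * u' t).re =
        ‖u t‖ ^ 2 * (n' t / 2) + ((starRingEnd ℂ) (u t) * (cr * e)).re := by
      have h2 : ((n t : ℝ) : ℂ) * ((starRingEnd ℂ) (u t) * u' t) =
          ((‖u t‖ ^ 2 : ℝ) : ℂ) * ((starRingEnd ℂ) (p t) * p' t + (starRingEnd ℂ) (q t) * q' t) +
            (starRingEnd ℂ) (u t) * (cr * e) := by
        have h3 : ((‖u t‖ ^ 2 : ℝ) : ℂ) = (starRingEnd ℂ) (u t) * u t := by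
          rw [Complex.conj_mul']
          push_cast
          rfl
        rw [h3]
        calc ((n t : ℝ) : ℂ) * ((starRingEnd ℂ) (u t) * u' t)
            = (starRingEnd ℂ) (u t) * (((n t : ℝ) : ℂ) * u' t) := by ring
          _ = _ := by rw [key]; ring
      have h4 := congrArg Complex.re h2
      rw [Complex.re_ofReal_mul, Complex.add_re, Complex.re_ofReal_mul, Complex.add_re] at h4
      rw [h4]
      ring
    have hcrn : ‖cr‖ ≤ K * n t := by
      have h2 : cr = -((wpol P Q).eval (γ t)) * (z₁ - z₀) := by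
        rw [hcr]
        simp only [hp, hq, hp', hq', wpol, eval_sub, eval_mul]
        ring
      have h3 := h t ht
      have h4 : nn (FF P Q (γ t)) ^ 2 = n t := nn_sq _
      rw [gg] at h3
      have h5 : ‖(wpol P Q).eval (γ t)‖ ≤ L * n t := by
        rw [← h4]
        rwa [div_le_iff₀ (by rw [h4]; exact hnt)] at h3
      rw [h2, norm_mul, norm_neg, hK]
      calc ‖(wpol P Q).eval (γ t)‖ * ‖z₁ - z₀‖ ≤ (L * n t) * ‖z₁ - z₀‖ :=
            mul_le_mul_of_nonneg_right h5 (norm_nonneg _)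
        _ = _ := by ring
    have hen : ‖e‖ ≤ nn c * √(n t) := by
      calc ‖e‖ ≤ ‖c.1‖ * ‖p t‖ + ‖c.2‖ * ‖q t‖ := by
            refine (norm_add_le _ _).trans (le_of_eq ?_)
            rw [norm_mul, norm_mul, RCLike.norm_conj, RCLike.norm_conj]
        _ ≤ nn c * √(n t) := by
            rw [nn, ← Real.sqrt_mul (by positivity)]
            refine Real.le_sqrt_of_sq_le ?_
            simp only [hn]
            nlinarith [sq_nonneg (‖c.1‖ * ‖q t‖ - ‖c.2‖ * ‖p t‖)]
    have hre : ((starRingEnd ℂ) (u t) * (cr * e)).re ≤ ‖u t‖ * (K * n t * (nn c * √(n t))) := by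
      refine (Complex.re_le_norm _).trans ?_
      rw [norm_mul, norm_mul, RCLike.norm_conj]
      refine mul_le_mul_of_nonneg_left ?_ (norm_nonneg _)
      exact mul_le_mul hcrn hen (norm_nonneg _) (mul_nonneg hK0 hnt.le)
    have hsφ : √(φ t) = ‖u t‖ / (nn c * √(n t)) := by
      have h2 : φ t = (‖u t‖ / (nn c * √(n t))) ^ 2 := by
        rw [div_pow, mul_pow, hsn2]
      rw [h2, Real.sqrt_sq (by positivity)]
    rw [hsφ]
    have h5 : φ' t = 2 * ((starRingEnd ℂ) (u t) * (cr * e)).re / (C * n t ^ 2) := by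
      simp only [hφ']
      rw [div_eq_div_iff (by positivity) (by positivity)]
      have h6 : 2 * ((starRingEnd ℂ) (u t) * u' t).re * (C * n t) - ‖u t‖ ^ 2 * (C * n' t) =
          C * (2 * ((starRingEnd ℂ) (u t) * (cr * e)).re) := by linear_combination (2 * C) * h1
      rw [h6]
      ring
    rw [h5, div_le_iff₀ (by positivity)]
    have h7 : 2 * K * (‖u t‖ / (nn c * √(n t))) * (C * n t ^ 2) =
        2 * (‖u t‖ * (K * n t * (nn c * √(n t)))) := by
      rw [hC]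
      field_simp
      rw [hsn2]
    rw [h7]
    linarith
  have hφz : φ 0 = 0 := by
    have h1 : u 0 = 0 := by
      simp only [hu, hp, hq, hγ, hcd, FF]
      simp
      ring
    simp only [hφ]
    rw [h1]
    simp
  have hroot : ∀ ε : ℝ, 0 < ε → √(φ 1 + ε) ≤ √ε + K := by
    intro ε hε
    have hd : ∀ t, HasDerivAt (fun t => √(φ t + ε)) (φ' t / (2 * √(φ t + ε))) t := fun t =>
      ((hφd t).add_const ε).sqrt (by have := hφ0 t; positivity)
    have h1 := Convex.image_sub_le_mul_sub_of_deriv_le (convex_Icc (0 : ℝ) 1)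
      (f := fun t => √(φ t + ε)) (fun t _ => (hd t).continuousAt.continuousWithinAt)
      (fun t _ => (hd t).differentiableAt.differentiableWithinAt) (C := K) (fun t ht => by
        rw [interior_Icc] at ht
        rw [(hd t).deriv]
        have h2 := hφ0 t
        have h3 : 0 < √(φ t + ε) := Real.sqrt_pos.2 (by positivity)
        rw [div_le_iff₀ (by positivity)]
        have h4 := hineq t ⟨ht.1.le, ht.2.le⟩
        have h5 : √(φ t) ≤ √(φ t + ε) := Real.sqrt_le_sqrt (by linarith)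
        have h6 := mul_le_mul_of_nonneg_left h5 (show 0 ≤ 2 * K by positivity)
        linarith) 0 ⟨le_rfl, zero_le_one⟩ 1 ⟨zero_le_one, le_rfl⟩ zero_le_one
    simp only [hφz, zero_add, sub_zero, mul_one] at h1
    linarith
  have hfin : φ 1 ≤ K ^ 2 := by
    refine le_of_forall_pos_le_add fun η hη => ?_
    -- choose `ε` with `(√ε + K)² ≤ K² + η`
    set δ : ℝ := min 1 (η / (1 + 2 * K)) with hδ
    have hδ0 : 0 < δ := lt_min one_pos (by positivity)
    have hδ1 : δ ≤ 1 := min_le_left _ _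
    have hδ2 : δ * (1 + 2 * K) ≤ η := by
      have : δ ≤ η / (1 + 2 * K) := min_le_right _ _
      rwa [le_div_iff₀ (by positivity)] at this
    have h1 := hroot (δ ^ 2) (by positivity)
    rw [Real.sqrt_sq hδ0.le] at h1
    have h2 := pow_le_pow_left₀ (Real.sqrt_nonneg _) h1 2
    rw [Real.sq_sqrt (by have := hφ0 1; positivity)] at h2
    nlinarith
  -- conclusion
  have hn1 : n 1 = nn (FF P Q z₁) ^ 2 := by
    have h1 : γ 1 = z₁ := by simp [hγ]
    simp only [hn, hp, hq, h1]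
    exact (nn_sq (FF P Q z₁)).symm
  have hu1 : u 1 = cx c (FF P Q z₁) := by
    have h1 : γ 1 = z₁ := by simp [hγ]
    simp only [hu, hp, hq, h1, cx, FF]
  have hn1' := nn_pos (FF_ne hc z₁)
  simp only [hφ] at hfin
  rw [hn1, hu1, div_le_iff₀ (by positivity)] at hfin
  refine le_of_sq_le_sq' ?_ (by positivity)
  calc ‖cx c (FF P Q z₁)‖ ^ 2 ≤ K ^ 2 * (C * nn (FF P Q z₁) ^ 2) := hfin
    _ = _ := by rw [hC]; ring

end Run7.h748.Mob
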