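import Pool.Agent.Run7.h748.Mob.Diam
import Pool.Agent.R239.Fat.T10
import Pool.Agent.H790R3.RB.TPQ
import Pool.Agent.H790R3.RB.TINJL
import Pool.Agent.H790R3.RB.TWR

/-!
# Hyperbolicity of `M ∘ R` for a Möbius map `M` which maps the complement of a small disc into a small disc
-/

set_option autoImplicit false

open MeasureTheory Metric Set Complex Filter Topology Polynomial
open scoped Real OnePoint
open Pool.Agent.R239.Fat (Sph LocInj Att Hyp Hol mob locInj_comp locInj_of_injective att_of_iter hol_mob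
  mob_cont mob_pr mobH trap_att pr_coe coe_ne hol_sp)
open Pool.Agent.H790R3.RB (CV hF ND sp pr hc pol wr cr)

namespace Run7.h748.Mob

/-- `P / Q` is in lowest terms and every critical point (point of the Riemann sphere where the map
is not locally injective) has an orbit converging to an attracting periodic cycle. -/
def Hyperbolic (P Q : Polynomial ℂ) : Prop :=
  IsCoprime P Q ∧ ∃ f : OnePoint ℂ → OnePoint ℂ, Continuous f ∧
    (∀ z : ℂ, Q.eval z ≠ 0 →
      f (OnePoint.some z) = OnePoint.some (P.eval z / Q.eval z)) ∧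
    ∀ c : OnePoint ℂ, (¬ ∃ U ∈ nhds c, Set.InjOn f U) →
      ∃ z : OnePoint ℂ, ∃ n : ℕ, 0 < n ∧ f^[n] z = z ∧
        (∃ U ∈ nhds z, ∀ w ∈ U,
          Filter.Tendsto (fun k : ℕ => f^[n * k] w) Filter.atTop (nhds z)) ∧
        Filter.Tendsto (fun k : ℕ => f^[n * k] c) Filter.atTop (nhds z)

/-- `P / Q` is in lowest terms and has an attracting fixed point `z₀ ∈ ℂ` with multiplier of modulus
at most `3 / 4`, and an open connected subset of the basin of `z₀` contains `z₀` and all critical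
values: all critical values lie in the immediate basin of `z₀`. -/
def Captured (P Q : Polynomial ℂ) : Prop :=
  IsCoprime P Q ∧ ∃ f : OnePoint ℂ → OnePoint ℂ, Continuous f ∧
    (∀ z : ℂ, Q.eval z ≠ 0 →
      f (OnePoint.some z) = OnePoint.some (P.eval z / Q.eval z)) ∧
    ∃ z₀ : ℂ, Q.eval z₀ ≠ 0 ∧ P.eval z₀ / Q.eval z₀ = z₀ ∧
      ‖deriv (fun z => P.eval z / Q.eval z) z₀‖ ≤ 3 / 4 ∧
      ∃ W : Set (OnePoint ℂ), IsOpen W ∧ IsConnected W ∧ OnePoint.some z₀ ∈ W ∧
        (∀ w ∈ W, Filter.Tendsto (fun k : ℕ => f^[k] w) Filter.atTop (nhds (OnePoint.some z₀))) ∧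
        ∀ c : OnePoint ℂ, (¬ ∃ U ∈ nhds c, Set.InjOn f U) → f c ∈ W

theorem Captured.hyperbolic {P Q : Polynomial ℂ} (h : Captured P Q) : Hyperbolic P Q := by
  obtain ⟨h0, f, hf, hPQ, z₀, hQ, hfix, -, W, hW, -, hzW, hatt, hcrit⟩ := h
  refine ⟨h0, f, hf, hPQ, fun c hc => ⟨OnePoint.some z₀, 1, one_pos, ?_, ⟨W, hW.mem_nhds hzW, ?_⟩, ?_⟩⟩
  · rw [Function.iterate_one, hPQ z₀ hQ, hfix]
  · intro w hw
    simpa only [one_mul] using hatt w hw
  · have h1 := hatt _ (hcrit c hc)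
    simp only [one_mul]
    refine (tendsto_add_atTop_iff_nat 1).1 ?_
    exact h1

/-- a holomorphic map of a disc into a much smaller concentric disc -/
theorem banach {c : ℂ} {ρ : ℝ} (hρ : 0 < ρ) {F : ℂ → ℂ} (hF : DifferentiableOn ℂ F (ball c (4 * ρ)))
    (hm : ∀ z ∈ ball c (4 * ρ), F z ∈ closedBall c (16 / 15 * ρ)) :
    ∃ z₀ ∈ closedBall c (2 * ρ), F z₀ = z₀ ∧ ‖deriv F z₀‖ ≤ 3 / 4 ∧
      ∀ z ∈ ball c (4 * ρ), Tendsto (fun k => F^[k] z) atTop (𝓝 z₀) := by
  have hder : ∀ v ∈ closedBall c (2 * ρ), ‖deriv F v‖ ≤ 3 / 4 := by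
    intro v hv
    have hsub : closedBall v (3 / 2 * ρ) ⊆ ball c (4 * ρ) := by
      refine closedBall_subset_ball' ?_
      have := mem_closedBall.1 hv
      linarith
    have h1 : DiffContOnCl ℂ (fun z => F z - c) (ball v (3 / 2 * ρ)) := by
      refine DifferentiableOn.diffContOnCl ?_
      have h2 : closure (ball v (3 / 2 * ρ)) ⊆ ball c (4 * ρ) := closure_ball_subset_closedBall.trans hsub
      exact (hF.mono h2).sub_const c
    have h3 := Complex.norm_deriv_le_of_forall_mem_sphere_norm_le (C := 16 / 15 * ρ)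
      (show 0 < 3 / 2 * ρ by positivity) h1 (fun z hz => by
        have := hm z (hsub (sphere_subset_closedBall hz))
        rwa [mem_closedBall, dist_eq_norm] at this)
    have h4 : deriv (fun z => F z - c) v = deriv F v := by simp
    rw [h4] at h3
    refine h3.trans ?_
    rw [div_le_iff₀ (by positivity)]
    nlinarith
  have hLip : ∀ x ∈ closedBall c (2 * ρ), ∀ y ∈ closedBall c (2 * ρ), dist (F x) (F y) ≤ 3 / 4 * dist x y := by
    intro x hx y hy
    rw [dist_eq_norm, dist_eq_norm]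
    refine Convex.norm_image_sub_le_of_norm_deriv_le (𝕜 := ℂ) (s := closedBall c (2 * ρ)) (fun z hz => ?_)
      hder (convex_closedBall _ _) hy hx
    exact hF.differentiableAt (isOpen_ball.mem_nhds (closedBall_subset_ball (by linarith) hz))
  have hmaps : ∀ z ∈ ball c (4 * ρ), F z ∈ closedBall c (2 * ρ) := fun z hz =>
    closedBall_subset_closedBall (by linarith) (hm z hz)
  have hmaps' : MapsTo F (closedBall c (2 * ρ)) (closedBall c (2 * ρ)) := fun z hz =>
    hmaps z (closedBall_subset_ball (by linarith) hz)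
  have hcon : ContractingWith (3 / 4) (hmaps'.restrict F _ _) := by
    refine ⟨?_, ?_⟩
    · rw [← NNReal.coe_lt_coe]
      norm_num
    · refine LipschitzWith.of_dist_le_mul fun x y => ?_
      have := hLip x x.2 y y.2
      push_cast
      exact this
  obtain ⟨z₀, hz₀, hfix, -, -⟩ := hcon.exists_fixedPoint' isClosed_closedBall.isComplete hmaps'
    (mem_closedBall_self (by positivity)) (edist_ne_top c (F c))
  have hfix' : F z₀ = z₀ := hfix
  refine ⟨z₀, hz₀, hfix', hder z₀ hz₀, fun z hz => ?_⟩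
  have h1 : ∀ k, F^[k] (F z) ∈ closedBall c (2 * ρ) ∧ dist (F^[k] (F z)) z₀ ≤ (3 / 4) ^ k * dist (F z) z₀ := by
    intro k
    induction k with
    | zero => exact ⟨hmaps z hz, by simp⟩
    | succ k ih =>
      rw [Function.iterate_succ_apply']
      refine ⟨hmaps' ih.1, ?_⟩
      have h2 := hLip _ ih.1 _ hz₀
      rw [hfix'] at h2
      calc dist (F (F^[k] (F z))) z₀ ≤ 3 / 4 * dist (F^[k] (F z)) z₀ := h2
        _ ≤ 3 / 4 * ((3 / 4) ^ k * dist (F z) z₀) := mul_le_mul_of_nonneg_left ih.2 (by norm_num)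
        _ = _ := by ring
  have h2 : Tendsto (fun k => F^[k] (F z)) atTop (𝓝 z₀) := by
    rw [tendsto_iff_dist_tendsto_zero]
    refine squeeze_zero (fun k => dist_nonneg) (fun k => (h1 k).2) ?_
    have : Tendsto (fun k : ℕ => (3 / 4 : ℝ) ^ k * dist (F z) z₀) atTop (𝓝 (0 * dist (F z) z₀)) :=
      (tendsto_pow_atTop_nhds_zero_of_lt_one (by norm_num) (by norm_num)).mul_const _
    rwa [zero_mul] at this
  refine (tendsto_add_atTop_iff_nat 1).1 ?_
  exact h2

theorem SU_eq {d : ℕ} (x : CV d) (i : Fin 2) (z : ℂ) :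
    Pool.Agent.H790R3.RB.WR.SU (fun j => x (i, j)) (z, 1) = (derivative (pol x i)).eval z := by
  unfold Pool.Agent.H790R3.RB.WR.SU pol
  rw [derivative_sum, eval_finsetSum]
  refine Finset.sum_congr rfl fun j _ => ?_
  rw [derivative_monomial, eval_monomial]
  simp only [one_pow, mul_one]
  ring

theorem SV_eq {d : ℕ} (x : CV d) (i : Fin 2) (z : ℂ) :
    Pool.Agent.H790R3.RB.WR.SV (fun j => x (i, j)) (z, 1) =
      d * (pol x i).eval z - z * (derivative (pol x i)).eval z := by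
  rw [← SU_eq]
  unfold Pool.Agent.H790R3.RB.WR.SV Pool.Agent.H790R3.RB.WR.SU
  rw [Pool.Agent.H790R3.RB.PQ.pol_eval, Finset.mul_sum, Finset.mul_sum, ← Finset.sum_sub_distrib]
  refine Finset.sum_congr rfl fun j _ => ?_
  have hj : (j : ℕ) ≤ d := by have := j.2; omega
  rw [Nat.cast_sub hj]
  simp only [one_pow, mul_one]
  rcases Nat.eq_zero_or_pos (j : ℕ) with h | h
  · rw [h]
    simp
    ring
  · have h1 : z ^ (j : ℕ) = z * z ^ ((j : ℕ) - 1) := by
      rw [← pow_succ']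
      congr 1
      omega
    rw [h1]
    ring

theorem wr_one {d : ℕ} (x : CV d) (z : ℂ) :
    wr x (z, 1) = d * (wpol (pol x 0) (pol x 1)).eval z := by
  rw [Pool.Agent.H790R3.RB.WR.wr_eq, SU_eq, SU_eq, SV_eq, SV_eq, wpol, eval_sub, eval_mul, eval_mul]
  ring

/-- the linear map with matrix `((a, b), (c, e))` -/
noncomputable def mv (a b c e : ℂ) (y : ℂ × ℂ) : ℂ × ℂ := (a * y.1 + b * y.2, c * y.1 + e * y.2)

/-- every critical point is a zero of the Wronskian or infinity -/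
theorem crit_cases {d : ℕ} (hd : 2 ≤ d) {x : CV d} (hx : ND x) {y : Sph} (hy : ¬ LocInj (sp x) y) :
    y = OnePoint.infty ∨ ∃ z : ℂ, y = (z : Sph) ∧ (wpol (pol x 0) (pol x 1)).eval z = 0 := by
  induction y using OnePoint.rec with
  | infty => exact Or.inl rfl
  | coe z =>
    refine Or.inr ⟨z, rfl, ?_⟩
    by_contra hcon
    apply hy
    have h1 : wr x (z, 1) ≠ 0 := by
      rw [wr_one]
      refine mul_ne_zero ?_ hcon
      have : (0 : ℕ) < d := by omega
      exact_mod_cast this.ne'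
    have h2 := Pool.Agent.H790R3.RB.INJL Pool.Agent.H790R3.RB.SP Pool.Agent.H790R3.RB.WR d x (z, 1) hd hx
      (coe_ne z) h1
    rwa [pr_coe] at h2

/-- a vector near `(p, 1)` -/
theorem near_vec {y : ℂ × ℂ} {p : ℂ} {s : ℝ} (hs : 0 < s) (hsp : s * bb p < 1 / 16) (hy : y ≠ 0)
    (h : ‖crq y p‖ ≤ s * (nn y * bb p)) : y.2 ≠ 0 ∧ ‖y.1 / y.2 - p‖ ≤ 16 / 15 * (s * bb p ^ 2) := by
  have hb := bb_pos p
  have hy2 : y.2 ≠ 0 := by
    intro h0
    have h1 : crq y p = y.1 := by rw [crq, h0, mul_zero, sub_zero]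
    have h2 : nn y = ‖y.1‖ := by
      rw [nn, h0, norm_zero]
      simp
    have h3 : 0 < ‖y.1‖ := by
      rw [norm_pos_iff]
      intro h4
      exact hy (Prod.ext h4 h0)
    rw [h1, h2] at h
    have h4 : s * (‖y.1‖ * bb p) = (s * bb p) * ‖y.1‖ := by ring
    rw [h4] at h
    nlinarith
  refine ⟨hy2, ?_⟩
  set u := y.1 / y.2 with hu
  have hy2' : 0 < ‖y.2‖ := norm_pos_iff.2 hy2
  have e1 : crq y p = y.2 * (u - p) := by
    rw [crq, hu]
    field_simp
  have e2 : nn y = bb u * ‖y.2‖ := by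
    have h1 : (bb u * ‖y.2‖) ^ 2 = nn y ^ 2 := by
      rw [mul_pow, bb_sq, nn_sq, hu, norm_div]
      field_simp
      ring
    exact ((pow_left_inj₀ (mul_nonneg (bb_pos _).le (norm_nonneg _)) (nn_nonneg _) (by norm_num)).1 h1).symm
  rw [e1, norm_mul, e2] at h
  have h1 : ‖y.2‖ * ‖u - p‖ ≤ ‖y.2‖ * (s * bb u * bb p) := by linarith
  have h2 := le_of_mul_le_mul_left h1 hy2'
  have h3 := bb_le u p
  have h4 : s * bb p * bb u ≤ s * bb p * (bb p + ‖u - p‖) := mul_le_mul_of_nonneg_left h3 (by positivity)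
  have h5 : s * bb p * ‖u - p‖ ≤ 1 / 16 * ‖u - p‖ := mul_le_mul_of_nonneg_right hsp.le (norm_nonneg _)
  nlinarith

theorem dyn {d : ℕ} (hd : 2 ≤ d) {P Q : ℂ[X]} (hc : IsCoprime P Q)
    (hdeg : max P.natDegree Q.natDegree = d) {p q : ℂ} {s : ℝ} (hs : 0 < s) (G1 : s * bb p < 1 / 16)
    (G2 : ∀ z ∈ closedBall p (4 * s * bb p ^ 2), s * (nn (FF P Q z) * bb q) < ‖crq (FF P Q z) q‖)
    (G3 : ∀ z, (wpol P Q).eval z = 0 → s * (nn (FF P Q z) * bb q) < ‖crq (FF P Q z) q‖)
    (G4 : s * (nn (P.coeff d, Q.coeff d) * bb q) < ‖crq (P.coeff d, Q.coeff d) q‖)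
    {a b c e : ℂ} (hdet : a * e - b * c ≠ 0)
    (hM : ∀ y, y ≠ 0 → s * (nn y * bb q) ≤ ‖crq y q‖ →
      ‖crq (mv a b c e y) p‖ ≤ s * (nn (mv a b c e y) * bb p)) :
    Captured (C a * P + C b * Q) (C c * P + C e * Q) := by
  obtain ⟨x, hx, hxP, hxQ, -⟩ := (Pool.Agent.H790R3.RB.PQ Pool.Agent.H790R3.RB.SP d (by omega)).2 P Q hc hdeg
  have eF : ∀ z : ℂ, hF x (z, 1) = FF P Q z := fun z => by
    rw [Pool.Agent.H790R3.RB.PQ.hF_one, hxP, hxQ]
    rfl
  have eF' : hF x (1, 0) = (P.coeff d, Q.coeff d) := by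
    rw [Pool.Agent.H790R3.RB.PQ.hF_inf, hxP, hxQ]
  have hb := bb_pos p
  set h : Sph → Sph := mob a b c e ∘ sp x with hh
  have hhol : Hol h := (hol_sp (by omega) hx).comp (hol_mob hdet)
  have hmv : ∀ y : ℂ × ℂ, y ≠ 0 → mv a b c e y ≠ 0 := fun y hy => Pool.Agent.R239.Fat.lin_ne hdet hy
  have hval : ∀ y : ℂ × ℂ, y ≠ 0 → h (pr y) = pr (mv a b c e (hF x y)) := by
    intro y hy
    have h1 : hF x y ≠ 0 := fun h0 => hy (hx y h0)
    show mob a b c e (sp x (pr y)) = _
    rw [Pool.Agent.H790R3.RB.SP.sp_pr hx hy, mob_pr hdet h1]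
    rfl
  set N : ℂ[X] := C a * P + C b * Q with hN
  set D : ℂ[X] := C c * P + C e * Q with hD
  have h2 : ∀ z, (mv a b c e (FF P Q z)).2 = D.eval z := fun z => by simp [mv, FF, hD]
  have h3 : ∀ z, (mv a b c e (FF P Q z)).1 = N.eval z := fun z => by simp [mv, FF, hN]
  have hform : ∀ z : ℂ, D.eval z ≠ 0 → h (z : Sph) = ((N.eval z / D.eval z : ℂ) : Sph) := by
    intro z hz
    have h1 := hval (z, 1) (coe_ne z)
    rw [pr_coe, eF] at h1
    rw [h1, Pool.Agent.H790R3.RB.SP.pr_ne (by rw [h2]; exact hz), h2, h3]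
  -- the trap
  set ρ : ℝ := s * bb p ^ 2 with hρ
  have hρ0 : 0 < ρ := by positivity
  have hr : 4 * s * bb p ^ 2 = 4 * ρ := by rw [hρ]; ring
  rw [hr] at G2
  have hinto : ∀ y : ℂ × ℂ, y ≠ 0 → s * (nn y * bb q) ≤ ‖crq y q‖ →
      (mv a b c e y).2 ≠ 0 ∧ (mv a b c e y).1 / (mv a b c e y).2 ∈ closedBall p (16 / 15 * ρ) := by
    intro y hy hyq
    obtain ⟨hu, hu'⟩ := near_vec hs G1 (hmv y hy) (hM y hy hyq)
    refine ⟨hu, ?_⟩
    rw [mem_closedBall, dist_eq_norm]
    exact hu'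
  set F : ℂ → ℂ := fun z => N.eval z / D.eval z with hF'
  have hFm : ∀ z ∈ closedBall p (4 * ρ), D.eval z ≠ 0 ∧ F z ∈ closedBall p (16 / 15 * ρ) := by
    intro z hz
    have h1 := hinto _ (FF_ne hc z) (G2 z hz).le
    rw [h2, h3] at h1
    exact h1
  have hFd : DifferentiableOn ℂ F (ball p (4 * ρ)) := fun z hz =>
    ((N.differentiableAt).div (D.differentiableAt) (hFm z (ball_subset_closedBall hz)).1).differentiableWithinAt
  obtain ⟨z₀, hz₀, hfix, hder, hconv⟩ := banach hρ0 hFd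
    (fun z hz => (hFm z (ball_subset_closedBall hz)).2)
  have hball : closedBall p (2 * ρ) ⊆ ball p (4 * ρ) := closedBall_subset_ball (by linarith)
  have hball' : closedBall p (16 / 15 * ρ) ⊆ ball p (4 * ρ) := closedBall_subset_ball (by linarith)
  set W : Set Sph := (fun z : ℂ => (z : Sph)) '' ball p (4 * ρ) with hW
  have hWo : IsOpen W := OnePoint.isOpen_image_coe.2 isOpen_ball
  have hWc : IsConnected W := by
    refine IsConnected.image ?_ _ OnePoint.continuous_coe.continuousOn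
    exact ⟨nonempty_ball.2 (by positivity), (convex_ball _ _).isPreconnected⟩
  have hiter : ∀ z ∈ ball p (4 * ρ), ∀ k : ℕ, F^[k] z ∈ ball p (4 * ρ) ∧
      h^[k] (z : Sph) = ((F^[k] z : ℂ) : Sph) := by
    intro z hz k
    induction k with
    | zero => exact ⟨hz, rfl⟩
    | succ k ih =>
      rw [Function.iterate_succ_apply', Function.iterate_succ_apply', ih.2]
      have h4 := hFm _ (ball_subset_closedBall ih.1)
      exact ⟨hball' h4.2, hform _ h4.1⟩
  have hatt : ∀ w ∈ W, Tendsto (fun k : ℕ => h^[k] w) atTop (𝓝 (z₀ : Sph)) := by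
    rintro _ ⟨z, hz, rfl⟩
    have h4 : (fun k : ℕ => h^[k] ((fun z : ℂ => (z : Sph)) z)) = fun k => ((F^[k] z : ℂ) : Sph) := by
      funext k
      exact (hiter z hz k).2
    rw [h4]
    exact (OnePoint.continuous_coe.tendsto z₀).comp (hconv z hz)
  have hcrit : ∀ y, ¬ LocInj h y → h y ∈ W := by
    intro y hy
    have h1 : ¬ LocInj (sp x) y := fun h2 => hy (locInj_comp (Pool.Agent.H790R3.RB.SP.sp_cont hx) h2
      (locInj_of_injective (mobH a b c e hdet).injective _))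
    have key : ∀ y' : ℂ × ℂ, y' ≠ 0 → s * (nn (hF x y') * bb q) < ‖crq (hF x y') q‖ → hF x y' ≠ 0 →
        h (pr y') ∈ W := by
      intro y' hy' hlt hne
      obtain ⟨h5, h6⟩ := hinto _ hne hlt.le
      rw [hval y' hy', Pool.Agent.H790R3.RB.SP.pr_ne h5]
      exact ⟨_, hball' h6, rfl⟩
    rcases crit_cases hd hx h1 with rfl | ⟨z, rfl, hz⟩
    · have h5 := key (1, 0) (by simp) (by rw [eF']; exact G4) (fun h0 => by
        have := hx (1, 0) h0
        simp at this)
      rwa [Pool.Agent.R239.Fat.pr_inf] at h5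
    · rw [hxP, hxQ] at hz
      have h5 := key (z, 1) (coe_ne z) (by rw [eF]; exact G3 z hz) (by rw [eF]; exact FF_ne hc z)
      rwa [pr_coe] at h5
  refine ⟨?_, h, hhol.cont, fun z hz => hform z hz, z₀, (hFm z₀ (ball_subset_closedBall (hball hz₀))).1,
    hfix, hder, W, hWo, hWc, ⟨z₀, hball hz₀, rfl⟩, hatt, hcrit⟩
  · -- coprimality
    rw [hN, hD]
    obtain ⟨u, v, huv⟩ := hc
    refine ⟨C (a * e - b * c)⁻¹ * (C e * u - C c * v), C (a * e - b * c)⁻¹ * (C a * v - C b * u), ?_⟩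
    have h1 : C (a * e - b * c)⁻¹ * (C e * u - C c * v) * (C a * P + C b * Q) +
        C (a * e - b * c)⁻¹ * (C a * v - C b * u) * (C c * P + C e * Q) =
        C (a * e - b * c)⁻¹ * (C a * C e - C b * C c) * (u * P + v * Q) := by ring
    rw [h1, huv, mul_one, ← C_mul, ← C_mul, ← C_sub, ← C_mul, inv_mul_cancel₀ hdet, C_1]

end Run7.h748.Mob
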