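import Pool.Agent.Run7.h748.Mob.Dyn

/-!
# The measure of the exceptional pairs
-/

set_option autoImplicit false

open MeasureTheory Metric Set Complex Filter Topology Polynomial
open scoped ENNReal Real

namespace Run7.h748.Mob

variable {P Q : ℂ[X]}

theorem dual_cap {s : ℝ} (hs : 0 < s) (z : ℂ) :
    sph {p | ‖z - p‖ < 8 * s * bb p ^ 2 ∧ s * bb p < 1 / 16} ≤ ENNReal.ofReal (5184 * π * s ^ 2) := by
  have hp := Real.pi_pos
  set a : ℝ := bb z with ha
  have ha0 : 0 < a := bb_pos z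
  have key : ∀ p ∈ {p | ‖z - p‖ < 8 * s * bb p ^ 2 ∧ s * bb p < 1 / 16},
      ‖z - p‖ ≤ 1 / 2 * bb p ∧ bb p ≤ 2 * a ∧ a ≤ 3 / 2 * bb p := by
    rintro p ⟨h1, h2⟩
    have hb := bb_pos p
    have h3 : 8 * s * bb p ^ 2 ≤ 1 / 2 * bb p := by
      have := mul_le_mul_of_nonneg_right h2.le hb.le
      nlinarith
    have h4 := bb_le z p
    have h5 := bb_le p z
    rw [norm_sub_rev] at h5
    refine ⟨h1.le.trans h3, ?_, ?_⟩ <;> linarith
  refine (sph_le_of_ball (x := z) (r := 32 * s * a ^ 2) (B := 81 / (16 * a ^ 4)) (by positivity)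
    (by positivity) (fun p hp' => ?_) (fun p hp' => ?_)).trans (ENNReal.ofReal_le_ofReal (le_of_eq ?_))
  · rw [mem_closedBall, dist_eq_norm, norm_sub_rev]
    refine hp'.1.le.trans ?_
    have h1 := pow_le_pow_left₀ (bb_pos p).le (key p hp').2.1 2
    have h2 := mul_le_mul_of_nonneg_left h1 (show 0 ≤ 8 * s by positivity)
    linarith
  · have e : (1 + ‖p‖ ^ 2) ^ 2 = bb p ^ 4 := by
      rw [← bb_sq]
      ring
    rw [e, div_le_div_iff₀ (by have := bb_pos p; positivity) (by positivity)]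
    have h2 := pow_le_pow_left₀ ha0.le (key p hp').2.2 4
    nlinarith
  · field_simp
    ring

/-- the relevant pairs -/
def Ks (s : ℝ) : Set (ℂ × ℂ) := {x | ‖x.2 - x.1‖ < 8 * s * bb x.1 ^ 2 ∧ s * bb x.1 < 1 / 16}

theorem Ks_meas (s : ℝ) : MeasurableSet (Ks s) := by
  have h1 : Continuous fun x : ℂ × ℂ => bb x.1 := bb_cont.comp continuous_fst
  have h2 : IsOpen {x : ℂ × ℂ | ‖x.2 - x.1‖ < 8 * s * bb x.1 ^ 2} :=
    isOpen_lt (continuous_snd.sub continuous_fst).norm (continuous_const.mul (h1.pow 2))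
  have h3 : IsOpen {x : ℂ × ℂ | s * bb x.1 < 1 / 16} := isOpen_lt (continuous_const.mul h1) continuous_const
  exact (h2.inter h3).measurableSet

/-- the integrand -/
noncomputable def Kf (P Q : ℂ[X]) (s : ℝ) (x : ℂ × ℂ) : ℝ≥0∞ :=
  (Ks s).indicator (fun x => ENNReal.ofReal (gg P Q x.2 ^ 2)) x

theorem Kf_meas (hc : IsCoprime P Q) (s : ℝ) : Measurable (Kf P Q s) :=
  (((gg_cont hc).pow 2).measurable.ennreal_ofReal.comp measurable_snd).indicator (Ks_meas s)

/-- the mass in the disc -/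
noncomputable def am (P Q : ℂ[X]) (s : ℝ) (p : ℂ) : ℝ≥0∞ := ∫⁻ z, Kf P Q s (p, z)

theorem am_meas (hc : IsCoprime P Q) (s : ℝ) : Measurable (am P Q s) :=
  (Kf_meas hc s).lintegral_prod_right'

theorem am_eq {s : ℝ} {p : ℂ} (hp : s * bb p < 1 / 16) :
    ∫⁻ z in ball p (8 * s * bb p ^ 2), ENNReal.ofReal (gg P Q z ^ 2) = am P Q s p := by
  rw [am, ← lintegral_indicator measurableSet_ball]
  refine lintegral_congr fun z => ?_
  unfold Kf
  by_cases h : z ∈ ball p (8 * s * bb p ^ 2)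
  · have h1 : ((p, z) : ℂ × ℂ) ∈ Ks s := by
      rw [mem_ball, dist_eq_norm] at h
      exact ⟨h, hp⟩
    rw [indicator_of_mem h, indicator_of_mem h1]
  · have h1 : ((p, z) : ℂ × ℂ) ∉ Ks s := by
      rw [mem_ball, dist_eq_norm] at h
      exact fun h2 => h h2.1
    rw [indicator_of_notMem h, indicator_of_notMem h1]

theorem am_int {d : ℕ} (hc : IsCoprime P Q) (hP : P.natDegree ≤ d) (hQ : Q.natDegree ≤ d) (hQ0 : Q ≠ 0)
    (hW : wpol P Q ≠ 0) {s : ℝ} (hs : 0 < s) :
    ∫⁻ p, am P Q s p ∂sph ≤ ENNReal.ofReal (5184 * π * s ^ 2) * ENNReal.ofReal (d * π) := by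
  have hgm : Measurable fun z => ENNReal.ofReal (gg P Q z ^ 2) :=
    ((gg_cont hc).pow 2).measurable.ennreal_ofReal
  have hm : Measurable (Function.uncurry fun p z : ℂ => Kf P Q s (p, z)) := Kf_meas hc s
  have e1 : ∫⁻ p, am P Q s p ∂sph = ∫⁻ z, (∫⁻ p, Kf P Q s (p, z) ∂sph) := by
    unfold am
    exact lintegral_lintegral_swap hm.aemeasurable
  rw [e1]
  calc ∫⁻ z, (∫⁻ p, Kf P Q s (p, z) ∂sph)
      ≤ ∫⁻ z, ENNReal.ofReal (5184 * π * s ^ 2) * ENNReal.ofReal (gg P Q z ^ 2) := by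
        refine lintegral_mono fun z => ?_
        have e2 : ∀ p, Kf P Q s (p, z) =
            {p | ‖z - p‖ < 8 * s * bb p ^ 2 ∧ s * bb p < 1 / 16}.indicator
              (fun _ => ENNReal.ofReal (gg P Q z ^ 2)) p := fun p => rfl
        have hms : MeasurableSet {p | ‖z - p‖ < 8 * s * bb p ^ 2 ∧ s * bb p < 1 / 16} :=
          measurable_prodMk_right (y := z) (Ks_meas s)
        simp only [e2]
        rw [lintegral_indicator hms, setLIntegral_const, mul_comm]
        gcongr
        exact dual_cap hs z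
    _ = ENNReal.ofReal (5184 * π * s ^ 2) * ∫⁻ z, ENNReal.ofReal (gg P Q z ^ 2) :=
        lintegral_const_mul _ hgm
    _ ≤ _ := by
        gcongr
        exact total hP hQ hQ0 hW

/-- the deviation allowed at `p` -/
noncomputable def tau (P Q : ℂ[X]) (s : ℝ) (p : ℂ) : ℝ := 1936 * √((am P Q s p).toReal + s ^ 2) + s

theorem tau_meas (hc : IsCoprime P Q) (s : ℝ) : Measurable (tau P Q s) := by
  unfold tau
  exact (((am_meas hc s).ennreal_toReal.add_const _).sqrt.const_mul _).add_const _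

theorem tau_pos {s : ℝ} (hs : 0 < s) (p : ℂ) : 0 < tau P Q s p := by
  unfold tau
  positivity

/-- the vectors of the critical values -/
noncomputable def cvals (P Q : ℂ[X]) (d : ℕ) : Finset (ℂ × ℂ) := by
  classical
  exact insert (P.coeff d, Q.coeff d) ((wpol P Q).roots.toFinset.image (FF P Q))

/-- the exceptional pairs -/
def Bad (P Q : ℂ[X]) (d : ℕ) (s : ℝ) : Set (ℂ × ℂ) :=
  (({x : ℂ × ℂ | 1 / 16 ≤ s * bb x.1} ∪ {x | ENNReal.ofReal (π / 2) ≤ am P Q s x.1 + ENNReal.ofReal (s ^ 2)}) ∪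
    {x | ‖crq (FF P Q x.1) x.2‖ ≤ tau P Q s x.1 * (nn (FF P Q x.1) * bb x.2)}) ∪
    ⋃ v ∈ cvals P Q d, {x | ‖crq v x.2‖ ≤ s * (nn v * bb x.2)}

theorem wpol_deg {d : ℕ} (hd : 1 ≤ d) (hP : P.natDegree ≤ d) (hQ : Q.natDegree ≤ d) :
    (wpol P Q).natDegree ≤ 2 * d - 1 := by
  unfold wpol
  refine (natDegree_sub_le _ _).trans (max_le ?_ ?_)
  · refine natDegree_mul_le.trans ?_
    have := natDegree_derivative_le P
    omega
  · refine natDegree_mul_le.trans ?_
    have := natDegree_derivative_le Q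
    omega

theorem cvals_card {d : ℕ} (hd : 1 ≤ d) (hP : P.natDegree ≤ d) (hQ : Q.natDegree ≤ d) :
    (cvals P Q d).card ≤ 2 * d := by
  classical
  unfold cvals
  refine (Finset.card_insert_le _ _).trans ?_
  have h1 := Finset.card_image_le (s := (wpol P Q).roots.toFinset) (f := FF P Q)
  have h2 := Multiset.toFinset_card_le (wpol P Q).roots
  have h3 := card_roots' (wpol P Q)
  have h4 := wpol_deg hd hP hQ
  omega

theorem cvals_ne {d : ℕ} (hc : IsCoprime P Q) (hdeg : max P.natDegree Q.natDegree = d) (hd : 1 ≤ d) :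
    ∀ v ∈ cvals P Q d, v ≠ 0 := by
  classical
  intro v hv
  unfold cvals at hv
  rcases Finset.mem_insert.1 hv with rfl | hv
  · intro h
    have h1 : P.coeff d = 0 := congrArg Prod.fst h
    have h2 : Q.coeff d = 0 := congrArg Prod.snd h
    rcases max_choice P.natDegree Q.natDegree with h3 | h3
    · rw [hdeg] at h3
      rw [h3, coeff_natDegree, leadingCoeff_eq_zero] at h1
      rw [h1, natDegree_zero] at h3
      omega
    · rw [hdeg] at h3
      rw [h3, coeff_natDegree, leadingCoeff_eq_zero] at h2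
      rw [h2, natDegree_zero] at h3
      omega
  · obtain ⟨z, -, rfl⟩ := Finset.mem_image.1 hv
    exact FF_ne hc z

theorem prod_left {S : Set ℂ} (hS : MeasurableSet S) :
    (sph.prod sph) {x : ℂ × ℂ | x.1 ∈ S} = sph S * ENNReal.ofReal π := by
  have : {x : ℂ × ℂ | x.1 ∈ S} = S ×ˢ univ := by ext x; simp
  rw [this, Measure.prod_prod, sph_univ]

theorem prod_right {S : Set ℂ} :
    (sph.prod sph) {x : ℂ × ℂ | x.2 ∈ S} = ENNReal.ofReal π * sph S := by
  have : {x : ℂ × ℂ | x.2 ∈ S} = univ ×ˢ S := by ext x; simp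
  rw [this, Measure.prod_prod, sph_univ]

/-- **The measure of the exceptional pairs.** -/
theorem bad_meas {d : ℕ} (hd : 1 ≤ d) (hc : IsCoprime P Q) (hdeg : max P.natDegree Q.natDegree = d)
    (hQ0 : Q ≠ 0) (hW : wpol P Q ≠ 0) {s : ℝ} (hs : 0 < s) :
    (sph.prod sph) (Bad P Q d s) ≤ ENNReal.ofReal (10 ^ 12 * π ^ 3 * d * s ^ 2) := by
  have hp := Real.pi_pos
  have hp3 := Real.pi_gt_three
  have hP : P.natDegree ≤ d := by rw [← hdeg]; exact le_max_left _ _
  have hQ : Q.natDegree ≤ d := by rw [← hdeg]; exact le_max_right _ _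
  have hd1 : (1 : ℝ) ≤ d := by exact_mod_cast hd
  have hd0 : (0 : ℝ) < d := by linarith
  set I : ℝ≥0∞ := ∫⁻ p, (am P Q s p + ENNReal.ofReal (s ^ 2)) ∂sph with hI
  have hIle : I ≤ ENNReal.ofReal (5185 * π ^ 2 * d * s ^ 2) := by
    rw [hI, lintegral_add_right _ measurable_const, lintegral_const, sph_univ]
    refine (add_le_add (am_int hc hP hQ hQ0 hW hs) le_rfl).trans ?_
    rw [← ENNReal.ofReal_mul (by positivity), ← ENNReal.ofReal_mul (by positivity),
      ← ENNReal.ofReal_add (by positivity) (by positivity)]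
    refine ENNReal.ofReal_le_ofReal ?_
    have h1 : s ^ 2 * π ≤ π ^ 2 * d * s ^ 2 := by
      have : π * 1 ≤ π * (π * d) := by
        refine mul_le_mul_of_nonneg_left ?_ hp.le
        nlinarith
      nlinarith [sq_nonneg s]
    nlinarith
  -- the four parts
  have p1 : (sph.prod sph) {x : ℂ × ℂ | 1 / 16 ≤ s * bb x.1} ≤
      ENNReal.ofReal (5376 * π ^ 2 * d * s ^ 2) := by
    have hS : MeasurableSet {p : ℂ | 1 / 16 ≤ s * bb p} :=
      measurableSet_le measurable_const (bb_cont.measurable.const_mul _)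
    have h1 := prod_left hS
    have h2 : sph {p : ℂ | 1 / 16 ≤ s * bb p} ≤ ENNReal.ofReal (21 * π * (16 * s) ^ 2) := by
      refine le_trans (measure_mono ?_) (cap (y := (1, 0)) (by simp) (t := 16 * s) (by positivity))
      intro p hp'
      have h3 : 1 / 16 ≤ s * bb p := hp'
      show ‖crq (1, 0) p‖ ≤ 16 * s * (nn (1, 0) * bb p)
      have h4 : crq (1, 0) p = 1 := by simp [crq]
      have h5 : nn (1, 0) = 1 := by simp [nn]
      rw [h4, h5, norm_one]
      linarith
    calc (sph.prod sph) {x : ℂ × ℂ | 1 / 16 ≤ s * bb x.1}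
        = sph {p : ℂ | 1 / 16 ≤ s * bb p} * ENNReal.ofReal π := h1
      _ ≤ ENNReal.ofReal (21 * π * (16 * s) ^ 2) * ENNReal.ofReal π := by gcongr
      _ ≤ _ := by
        rw [← ENNReal.ofReal_mul (by positivity)]
        refine ENNReal.ofReal_le_ofReal ?_
        have : π ^ 2 * s ^ 2 * 1 ≤ π ^ 2 * s ^ 2 * d := mul_le_mul_of_nonneg_left hd1 (by positivity)
        nlinarith
  have p2 : (sph.prod sph) {x : ℂ × ℂ | ENNReal.ofReal (π / 2) ≤ am P Q s x.1 + ENNReal.ofReal (s ^ 2)} ≤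
      ENNReal.ofReal (10370 * π ^ 2 * d * s ^ 2) := by
    have hm : Measurable fun p => am P Q s p + ENNReal.ofReal (s ^ 2) := (am_meas hc s).add_const _
    have hS : MeasurableSet {p : ℂ | ENNReal.ofReal (π / 2) ≤ am P Q s p + ENNReal.ofReal (s ^ 2)} :=
      measurableSet_le measurable_const hm
    have h1 := prod_left hS
    have h2 := mul_meas_ge_le_lintegral (μ := sph) hm (ENNReal.ofReal (π / 2))
    calc (sph.prod sph) {x : ℂ × ℂ | ENNReal.ofReal (π / 2) ≤ am P Q s x.1 + ENNReal.ofReal (s ^ 2)}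
        = sph {p : ℂ | ENNReal.ofReal (π / 2) ≤ am P Q s p + ENNReal.ofReal (s ^ 2)} * ENNReal.ofReal π := h1
      _ = ENNReal.ofReal 2 * (ENNReal.ofReal (π / 2) *
          sph {p : ℂ | ENNReal.ofReal (π / 2) ≤ am P Q s p + ENNReal.ofReal (s ^ 2)}) := by
          rw [← mul_assoc, ← ENNReal.ofReal_mul (by norm_num), mul_comm]
          congr 2
          ring
      _ ≤ ENNReal.ofReal 2 * I := by gcongr
      _ ≤ ENNReal.ofReal 2 * ENNReal.ofReal (5185 * π ^ 2 * d * s ^ 2) := by gcongr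
      _ = _ := by
        rw [← ENNReal.ofReal_mul (by norm_num)]
        congr 1
        ring
  have p3 : (sph.prod sph) {x : ℂ × ℂ | ‖crq (FF P Q x.1) x.2‖ ≤
      tau P Q s x.1 * (nn (FF P Q x.1) * bb x.2)} ≤
      ENNReal.ofReal (42 * 3748097 * 5185 * π ^ 3 * d * s ^ 2) := by
    have hcont : Continuous fun x : ℂ × ℂ => crq (FF P Q x.1) x.2 := by
      unfold crq FF
      exact (P.continuous.comp continuous_fst).sub
        (continuous_snd.mul (Q.continuous.comp continuous_fst))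
    have hS : MeasurableSet {x : ℂ × ℂ | ‖crq (FF P Q x.1) x.2‖ ≤
        tau P Q s x.1 * (nn (FF P Q x.1) * bb x.2)} := by
      refine measurableSet_le hcont.norm.measurable ?_
      refine ((tau_meas hc s).comp measurable_fst).mul ?_
      exact ((nn_cont.comp ((FF_cont P Q).comp continuous_fst)).mul
        (bb_cont.comp continuous_snd)).measurable
    rw [Measure.prod_apply hS]
    calc ∫⁻ p, sph (Prod.mk p ⁻¹' {x : ℂ × ℂ | ‖crq (FF P Q x.1) x.2‖ ≤
          tau P Q s x.1 * (nn (FF P Q x.1) * bb x.2)}) ∂sph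
        ≤ ∫⁻ p, ENNReal.ofReal (42 * 3748097 * π) * (am P Q s p + ENNReal.ofReal (s ^ 2)) ∂sph := by
          refine lintegral_mono fun p => ?_
          refine (cap (FF_ne hc p) (tau_pos (P := P) (Q := Q) hs p)).trans ?_
          have h1 : ENNReal.ofReal ((am P Q s p).toReal + s ^ 2) ≤
              am P Q s p + ENNReal.ofReal (s ^ 2) := by
            rw [ENNReal.ofReal_add ENNReal.toReal_nonneg (sq_nonneg _)]
            gcongr
            exact ENNReal.ofReal_toReal_le
          refine le_trans ?_ (mul_le_mul_right h1 _)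
          rw [← ENNReal.ofReal_mul (by positivity)]
          refine ENNReal.ofReal_le_ofReal ?_
          set A := (am P Q s p).toReal with hA
          have hA0 : 0 ≤ A := ENNReal.toReal_nonneg
          have h2 : √(A + s ^ 2) ^ 2 = A + s ^ 2 := Real.sq_sqrt (by positivity)
          have h3 : tau P Q s p ^ 2 ≤ 2 * (3748096 * (A + s ^ 2) + s ^ 2) := by
            have h4 : tau P Q s p = 1936 * √(A + s ^ 2) + s := rfl
            rw [h4]
            nlinarith [sq_nonneg (1936 * √(A + s ^ 2) - s)]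
          have h5 : 21 * π * tau P Q s p ^ 2 ≤ 21 * π * (2 * (3748096 * (A + s ^ 2) + s ^ 2)) :=
            mul_le_mul_of_nonneg_left h3 (by positivity)
          have h6 : 0 ≤ π * A := by positivity
          nlinarith
      _ = ENNReal.ofReal (42 * 3748097 * π) * I :=
          lintegral_const_mul _ ((am_meas hc s).add_const _)
      _ ≤ ENNReal.ofReal (42 * 3748097 * π) * ENNReal.ofReal (5185 * π ^ 2 * d * s ^ 2) := by gcongr
      _ = _ := by
        rw [← ENNReal.ofReal_mul (by positivity)]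
        congr 1
        ring
  have p4 : (sph.prod sph) (⋃ v ∈ cvals P Q d, {x | ‖crq v x.2‖ ≤ s * (nn v * bb x.2)}) ≤
      ENNReal.ofReal (42 * π ^ 2 * d * s ^ 2) := by
    refine (measure_biUnion_finset_le _ _).trans ?_
    calc ∑ v ∈ cvals P Q d, (sph.prod sph) {x | ‖crq v x.2‖ ≤ s * (nn v * bb x.2)}
        ≤ ∑ v ∈ cvals P Q d, ENNReal.ofReal (21 * π ^ 2 * s ^ 2) := by
          refine Finset.sum_le_sum fun v hv => ?_
          have h1 := prod_right (S := {q | ‖crq v q‖ ≤ s * (nn v * bb q)})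
          have h2 := cap (cvals_ne hc hdeg hd v hv) hs
          calc (sph.prod sph) {x | ‖crq v x.2‖ ≤ s * (nn v * bb x.2)}
              = ENNReal.ofReal π * sph {q | ‖crq v q‖ ≤ s * (nn v * bb q)} := h1
            _ ≤ ENNReal.ofReal π * ENNReal.ofReal (21 * π * s ^ 2) := by gcongr
            _ = _ := by
              rw [← ENNReal.ofReal_mul hp.le]
              congr 1
              ring
      _ = (cvals P Q d).card * ENNReal.ofReal (21 * π ^ 2 * s ^ 2) := by
          rw [Finset.sum_const, nsmul_eq_mul]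
      _ ≤ ENNReal.ofReal (2 * d) * ENNReal.ofReal (21 * π ^ 2 * s ^ 2) := by
          gcongr
          have h1 := cvals_card hd hP hQ
          have h2 : ENNReal.ofReal (2 * d) = ((2 * d : ℕ) : ℝ≥0∞) := by
            rw [← ENNReal.ofReal_natCast]
            push_cast
            rfl
          rw [h2]
          exact_mod_cast h1
      _ = _ := by
          rw [← ENNReal.ofReal_mul (by positivity)]
          congr 1
          ring
  have hsum : (sph.prod sph) (Bad P Q d s) ≤ ENNReal.ofReal (5376 * π ^ 2 * d * s ^ 2) +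
      ENNReal.ofReal (10370 * π ^ 2 * d * s ^ 2) +
      ENNReal.ofReal (42 * 3748097 * 5185 * π ^ 3 * d * s ^ 2) +
      ENNReal.ofReal (42 * π ^ 2 * d * s ^ 2) := by
    unfold Bad
    refine (measure_union_le _ _).trans (add_le_add ?_ p4)
    refine (measure_union_le _ _).trans (add_le_add ?_ p3)
    exact (measure_union_le _ _).trans (add_le_add p1 p2)
  refine hsum.trans ?_
  rw [← ENNReal.ofReal_add (by positivity) (by positivity),
    ← ENNReal.ofReal_add (by positivity) (by positivity),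
    ← ENNReal.ofReal_add (by positivity) (by positivity)]
  refine ENNReal.ofReal_le_ofReal ?_
  set X : ℝ := π ^ 2 * d * s ^ 2 with hX
  have hX0 : 0 ≤ X := by positivity
  have e1 : 5376 * π ^ 2 * d * s ^ 2 = 5376 * X := by rw [hX]; ring
  have e2 : 10370 * π ^ 2 * d * s ^ 2 = 10370 * X := by rw [hX]; ring
  have e3 : 42 * 3748097 * 5185 * π ^ 3 * d * s ^ 2 = 42 * 3748097 * 5185 * (π * X) := by rw [hX]; ring
  have e4 : 42 * π ^ 2 * d * s ^ 2 = 42 * X := by rw [hX]; ring
  have e5 : 10 ^ 12 * π ^ 3 * d * s ^ 2 = 10 ^ 12 * (π * X) := by rw [hX]; ring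
  rw [e1, e2, e3, e4, e5]
  have h1 : X ≤ π * X := by nlinarith
  nlinarith

end Run7.h748.Mob
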