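import Pool.Agent.Run7.h748.Mob.Area
import Pool.Agent.Helper240.ZFM.D1

/-!
# A bound of the spherical derivative for maps whose image omits half of the sphere
-/

set_option autoImplicit false

open MeasureTheory Metric Set Complex Filter Topology Polynomial
open scoped ENNReal Real

namespace Run7.h748.Mob

variable {P Q : ℂ[X]}

theorem one_le_DD {y : ℂ × ℂ} {q : ℂ} (h : crq y q ≠ 0) : 1 ≤ DD y q := by
  rw [DD, one_le_div (norm_pos_iff.2 h)]
  exact crq_le y q

theorem phi_norm {y : ℂ × ℂ} (hy : y ≠ 0) {q₁ q₂ w : ℂ} (h1 : crq y q₁ ≠ 0) (h2 : crq y q₂ ≠ 0) :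
    ‖w / (crq y q₁ * crq y q₂)‖ * (bb q₁ * bb q₂) = ‖w‖ / nn y ^ 2 * (DD y q₁ * DD y q₂) := by
  have a1 := nn_pos hy
  have a2 := norm_pos_iff.2 h1
  have a3 := norm_pos_iff.2 h2
  rw [norm_div, norm_mul, DD, DD]
  field_simp

theorem joint_meas (P Q : ℂ[X]) :
    Measurable fun x : ℂ × ℂ => ENNReal.ofReal (DD (FF P Q x.2) x.1) := by
  have h1 : Measurable fun x : ℂ × ℂ => nn (FF P Q x.2) * bb x.1 :=
    ((nn_cont.comp ((FF_cont P Q).comp continuous_snd)).mul (bb_cont.comp continuous_fst)).measurable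
  have h2 : Continuous fun x : ℂ × ℂ => crq (FF P Q x.2) x.1 := by
    unfold crq FF
    exact (P.continuous.comp continuous_snd).sub
      (continuous_fst.mul (Q.continuous.comp continuous_snd))
  exact (h1.div h2.norm.measurable).ennreal_ofReal

theorem key_q (hc : IsCoprime P Q) {z : ℂ} {r : ℝ} (hr : 0 < r) {q₁ q₂ : ℂ}
    (h1 : ∀ w ∈ ball z r, crq (FF P Q w) q₁ ≠ 0) (h2 : ∀ w ∈ ball z r, crq (FF P Q w) q₂ ≠ 0) :
    ENNReal.ofReal (π * r ^ 2 * gg P Q z) ≤ ∫⁻ w in ball z r, ENNReal.ofReal (gg P Q w) *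
      (ENNReal.ofReal (DD (FF P Q w) q₁) * ENNReal.ofReal (DD (FF P Q w) q₂)) := by
  have hp := Real.pi_pos
  have hb : 0 < bb q₁ * bb q₂ := mul_pos (bb_pos _) (bb_pos _)
  set Φ : ℂ → ℂ := fun w => (wpol P Q).eval w / (crq (FF P Q w) q₁ * crq (FF P Q w) q₂) with hΦ
  have hdiff : DifferentiableOn ℂ Φ (ball z r) := by
    intro w hw
    refine DifferentiableAt.differentiableWithinAt ?_
    refine ((wpol P Q).differentiable w).div ?_ (mul_ne_zero (h1 w hw) (h2 w hw))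
    refine DifferentiableAt.mul ?_ ?_
    · exact (P.differentiable w).sub ((Q.differentiable w).const_mul q₁)
    · exact (P.differentiable w).sub ((Q.differentiable w).const_mul q₂)
  have hm := ZFM.J_d1.area_mean hr hdiff
  have hz : z ∈ ball z r := mem_ball_self hr
  have e1 : ∀ w ∈ ball z r, ‖Φ w‖ * (bb q₁ * bb q₂) =
      gg P Q w * (DD (FF P Q w) q₁ * DD (FF P Q w) q₂) := fun w hw =>
    phi_norm (FF_ne hc w) (h1 w hw) (h2 w hw)
  calc ENNReal.ofReal (π * r ^ 2 * gg P Q z)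
      ≤ ENNReal.ofReal (π * r ^ 2 * ‖Φ z‖ * (bb q₁ * bb q₂)) := by
        refine ENNReal.ofReal_le_ofReal ?_
        rw [mul_assoc (π * r ^ 2), e1 z hz]
        have d1 := one_le_DD (h1 z hz)
        have d2 := one_le_DD (h2 z hz)
        have d3 : 1 ≤ DD (FF P Q z) q₁ * DD (FF P Q z) q₂ := one_le_mul_of_one_le_of_one_le d1 d2
        have d4 : gg P Q z ≤ gg P Q z * (DD (FF P Q z) q₁ * DD (FF P Q z) q₂) :=
          le_mul_of_one_le_right (gg_nonneg _ _ _) d3
        exact mul_le_mul_of_nonneg_left d4 (by positivity)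
    _ = ENNReal.ofReal (π * r ^ 2 * ‖Φ z‖) * ENNReal.ofReal (bb q₁ * bb q₂) :=
        ENNReal.ofReal_mul (by positivity)
    _ ≤ (∫⁻ w in ball z r, ‖Φ w‖ₑ) * ENNReal.ofReal (bb q₁ * bb q₂) := by gcongr
    _ = ∫⁻ w in ball z r, ‖Φ w‖ₑ * ENNReal.ofReal (bb q₁ * bb q₂) :=
        (lintegral_mul_const' _ _ ENNReal.ofReal_ne_top).symm
    _ = _ := by
        refine setLIntegral_congr_fun measurableSet_ball fun w hw => ?_
        rw [← ofReal_norm, ← ENNReal.ofReal_mul (norm_nonneg _), e1 w hw,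
          ENNReal.ofReal_mul (gg_nonneg _ _ _), ENNReal.ofReal_mul (DD_nonneg _ _)]

theorem swap2 {g : ℂ → ℝ≥0∞} (hg : Measurable g) {D : ℂ × ℂ → ℝ≥0∞} (hD : Measurable D) (Ω B : Set ℂ) :
    ∫⁻ q in Ω, (∫⁻ w in B, g w * D (q, w)) ∂sph = ∫⁻ w in B, g w * (∫⁻ q in Ω, D (q, w) ∂sph) := by
  have hm : Measurable (Function.uncurry fun q w : ℂ => g w * D (q, w)) :=
    (hg.comp measurable_snd).mul hD
  rw [lintegral_lintegral_swap hm.aemeasurable]
  refine lintegral_congr fun w => ?_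
  exact lintegral_const_mul _ (hD.comp (measurable_id.prodMk measurable_const))

/-- one integration over the omitted values -/
theorem one_step {g : ℂ → ℝ≥0∞} (hg : Measurable g) {D : ℂ × ℂ → ℝ≥0∞} (hD : Measurable D) {Ω B : Set ℂ}
    (hΩ : MeasurableSet Ω) {L C : ℝ≥0∞} (hC : ∀ w, ∫⁻ q, D (q, w) ∂sph ≤ C)
    (h : ∀ q ∈ Ω, L ≤ ∫⁻ w in B, g w * D (q, w)) : L * sph Ω ≤ C * ∫⁻ w in B, g w := by
  calc L * sph Ω = ∫⁻ q in Ω, L ∂sph := (setLIntegral_const _ _).symm
    _ ≤ ∫⁻ q in Ω, (∫⁻ w in B, g w * D (q, w)) ∂sph := setLIntegral_mono' hΩ h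
    _ = ∫⁻ w in B, g w * (∫⁻ q in Ω, D (q, w) ∂sph) := swap2 hg hD Ω B
    _ ≤ ∫⁻ w in B, g w * C :=
        lintegral_mono fun w => by
          gcongr
          exact (setLIntegral_le_lintegral _ _).trans (hC w)
    _ = C * ∫⁻ w in B, g w := by rw [lintegral_mul_const _ hg, mul_comm]

/-- two integrations over the omitted values -/
theorem two_steps {g : ℂ → ℝ≥0∞} (hg : Measurable g) {D : ℂ × ℂ → ℝ≥0∞} (hD : Measurable D) {Ω B : Set ℂ}
    (hΩ : MeasurableSet Ω) {L C : ℝ≥0∞} (hCt : C ≠ ⊤) (hC : ∀ w, ∫⁻ q, D (q, w) ∂sph ≤ C)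
    (h : ∀ q₁ ∈ Ω, ∀ q₂ ∈ Ω, L ≤ ∫⁻ w in B, g w * (D (q₁, w) * D (q₂, w))) :
    L * sph Ω * sph Ω ≤ C * (C * ∫⁻ w in B, g w) := by
  have s1 : ∀ q₁ ∈ Ω, L * sph Ω ≤ C * ∫⁻ w in B, g w * D (q₁, w) := by
    intro q₁ hq₁
    have hg1 : Measurable fun w => g w * D (q₁, w) :=
      hg.mul (hD.comp (measurable_const.prodMk measurable_id))
    refine one_step hg1 hD hΩ hC fun q₂ hq₂ => ?_
    refine (h q₁ hq₁ q₂ hq₂).trans (le_of_eq ?_)
    refine lintegral_congr fun w => ?_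
    rw [mul_assoc]
  have s2 : ∀ q₁ ∈ Ω, L * sph Ω ≤ ∫⁻ w in B, (C * g w) * D (q₁, w) := by
    intro q₁ hq₁
    refine (s1 q₁ hq₁).trans (le_of_eq ?_)
    rw [← lintegral_const_mul' _ _ hCt]
    refine lintegral_congr fun w => ?_
    rw [mul_assoc]
  refine (one_step (hg.const_mul _) hD hΩ hC s2).trans (le_of_eq ?_)
  rw [lintegral_const_mul' _ _ hCt]

/-- the mean value inequality, averaged over omitted values -/
theorem key_mean (hc : IsCoprime P Q) {z : ℂ} {r : ℝ} (hr : 0 < r) {Ω : Set ℂ} (hΩ : MeasurableSet Ω)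
    (h : ∀ q ∈ Ω, ∀ w ∈ ball z r, crq (FF P Q w) q ≠ 0) :
    ENNReal.ofReal (π * r ^ 2 * gg P Q z) * sph Ω * sph Ω ≤
      ENNReal.ofReal (22 * π) * (ENNReal.ofReal (22 * π) * ∫⁻ w in ball z r, ENNReal.ofReal (gg P Q w)) := by
  have hm1 : Measurable (fun w => ENNReal.ofReal (gg P Q w)) := (gg_cont hc).measurable.ennreal_ofReal
  have hm2 := joint_meas P Q
  have hI : ∀ w, ∫⁻ q, ENNReal.ofReal (DD (FF P Q w) q) ∂sph ≤ ENNReal.ofReal (22 * π) :=
    fun w => invd (FF_ne hc w)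
  have hk : ∀ q₁ ∈ Ω, ∀ q₂ ∈ Ω, ENNReal.ofReal (π * r ^ 2 * gg P Q z) ≤
      ∫⁻ w in ball z r, ENNReal.ofReal (gg P Q w) *
        (ENNReal.ofReal (DD (FF P Q w) q₁) * ENNReal.ofReal (DD (FF P Q w) q₂)) :=
    fun q₁ hq₁ q₂ hq₂ => key_q hc hr (h q₁ hq₁) (h q₂ hq₂)
  have hCt : ENNReal.ofReal (22 * π) ≠ ⊤ := ENNReal.ofReal_ne_top
  generalize ENNReal.ofReal (22 * π) = C at *
  generalize ENNReal.ofReal (π * r ^ 2 * gg P Q z) = L at *
  exact two_steps (g := fun w => ENNReal.ofReal (gg P Q w))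
    (D := fun x => ENNReal.ofReal (DD (FF P Q x.2) x.1)) hm1 hm2 hΩ hCt hI hk

/-- Cauchy-Schwarz -/
theorem l1_le (hc : IsCoprime P Q) {z : ℂ} {r A : ℝ} (hr : 0 < r) (hA : 0 < A)
    (h : ∫⁻ w in ball z r, ENNReal.ofReal (gg P Q w ^ 2) ≤ ENNReal.ofReal A) :
    ∫⁻ w in ball z r, ENNReal.ofReal (gg P Q w) ≤ ENNReal.ofReal (r * √(π * A)) := by
  have hp := Real.pi_pos
  set lam : ℝ := r * √π / √A with hlam
  have hsA : 0 < √A := Real.sqrt_pos.2 hA
  have hsp : 0 < √π := Real.sqrt_pos.2 hp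
  have hl : 0 < lam := by positivity
  have hgm : Measurable fun w => ENNReal.ofReal (gg P Q w ^ 2) :=
    ((gg_cont hc).pow 2).measurable.ennreal_ofReal
  calc ∫⁻ w in ball z r, ENNReal.ofReal (gg P Q w)
      ≤ ∫⁻ w in ball z r, (ENNReal.ofReal (lam / 2) * ENNReal.ofReal (gg P Q w ^ 2) +
          ENNReal.ofReal (1 / (2 * lam))) := by
        refine lintegral_mono fun w => ?_
        rw [← ENNReal.ofReal_mul (by positivity), ← ENNReal.ofReal_add (by positivity) (by positivity)]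
        refine ENNReal.ofReal_le_ofReal ?_
        have h1 := sq_nonneg (lam * gg P Q w - 1)
        have h2 : lam / 2 * gg P Q w ^ 2 + 1 / (2 * lam) =
            ((lam * gg P Q w - 1) ^ 2 + 2 * lam * gg P Q w) / (2 * lam) := by
          field_simp
          ring
        rw [h2, le_div_iff₀ (by positivity)]
        nlinarith
    _ = ENNReal.ofReal (lam / 2) * (∫⁻ w in ball z r, ENNReal.ofReal (gg P Q w ^ 2)) +
          ENNReal.ofReal (1 / (2 * lam)) * volume (ball z r) := by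
        rw [lintegral_add_right _ measurable_const, lintegral_const_mul' _ _ ENNReal.ofReal_ne_top,
          setLIntegral_const]
    _ ≤ ENNReal.ofReal (lam / 2) * ENNReal.ofReal A +
          ENNReal.ofReal (1 / (2 * lam)) * ENNReal.ofReal (π * r ^ 2) := by
        gcongr
        rw [Complex.volume_ball, ← ENNReal.ofReal_pow hr.le, ← ENNReal.ofReal_coe_nnreal,
          NNReal.coe_real_pi, ← ENNReal.ofReal_mul (by positivity), mul_comm]
    _ = ENNReal.ofReal (r * √(π * A)) := by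
        rw [← ENNReal.ofReal_mul (by positivity), ← ENNReal.ofReal_mul (by positivity),
          ← ENNReal.ofReal_add (by positivity) (by positivity)]
        congr 1
        rw [Real.sqrt_mul hp.le, hlam]
        have e1 : √A ^ 2 = A := Real.sq_sqrt hA.le
        have e2 : √π ^ 2 = π := Real.sq_sqrt hp.le
        have e3 : r * √π / √A / 2 * A = r * √π * √A / 2 := by
          nth_rewrite 2 [← e1]
          field_simp
        have e4 : 1 / (2 * (r * √π / √A)) * (π * r ^ 2) = r * √π * √A / 2 := by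
          nth_rewrite 2 [← e2]
          field_simp
        rw [e3, e4]
        ring

/-- **The bound of the spherical derivative.** -/
theorem sup_bound (hc : IsCoprime P Q) (hQ0 : Q ≠ 0) (hW : wpol P Q ≠ 0) {z : ℂ} {r A : ℝ} (hr : 0 < r)
    (hA : 0 < A) (hA2 : A ≤ π / 2)
    (h : ∫⁻ w in ball z r, ENNReal.ofReal (gg P Q w ^ 2) ≤ ENNReal.ofReal A) :
    gg P Q z ≤ 1936 * √A / r := by
  have hp := Real.pi_pos
  set S : Set ℂ := {q | ∃ w ∈ ball z r, Q.eval w ≠ 0 ∧ P.eval w = q * Q.eval w} with hS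
  have hS1 : sph S ≤ ENNReal.ofReal (π / 2) :=
    ((image_area hQ0 hW isOpen_ball).trans h).trans (ENNReal.ofReal_le_ofReal hA2)
  set T : Set ℂ := toMeasurable sph S with hT
  have hTm : MeasurableSet T := measurableSet_toMeasurable _ _
  have hT1 : sph T ≤ ENNReal.ofReal (π / 2) := by rw [hT, measure_toMeasurable]; exact hS1
  have hΩ : ENNReal.ofReal (π / 2) ≤ sph Tᶜ := by
    have h1 : sph univ ≤ sph T + sph Tᶜ := measure_univ_le_add_compl T
    rw [sph_univ] at h1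
    have h2 : ENNReal.ofReal π = ENNReal.ofReal (π / 2) + ENNReal.ofReal (π / 2) := by
      rw [← ENNReal.ofReal_add (by positivity) (by positivity)]
      congr 1
      ring
    rw [h2] at h1
    have h3 : ENNReal.ofReal (π / 2) + ENNReal.ofReal (π / 2) ≤ ENNReal.ofReal (π / 2) + sph Tᶜ :=
      h1.trans (add_le_add hT1 le_rfl)
    exact (ENNReal.add_le_add_iff_left ENNReal.ofReal_ne_top).1 h3
  have hom : ∀ q ∈ Tᶜ, ∀ w ∈ ball z r, crq (FF P Q w) q ≠ 0 := by
    intro q hq w hw hcr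
    apply hq
    refine subset_toMeasurable _ _ ⟨w, hw, ?_, ?_⟩
    · intro h0
      apply FF_ne hc w
      have : P.eval w - q * Q.eval w = 0 := hcr
      rw [h0, mul_zero, sub_zero] at this
      exact Prod.ext this h0
    · exact sub_eq_zero.1 hcr
  have h1 := key_mean hc hr hTm.compl hom
  have h2 := l1_le hc hr hA h
  have h3 : ENNReal.ofReal (π * r ^ 2 * gg P Q z) * ENNReal.ofReal (π / 2) * ENNReal.ofReal (π / 2) ≤
      ENNReal.ofReal (22 * π) * (ENNReal.ofReal (22 * π) * ENNReal.ofReal (r * √(π * A))) := by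
    refine le_trans ?_ (h1.trans ?_)
    · gcongr
    · gcongr
  have hg := gg_nonneg P Q z
  rw [← ENNReal.ofReal_mul (by positivity), ← ENNReal.ofReal_mul (by positivity),
    ← ENNReal.ofReal_mul (by positivity), ← ENNReal.ofReal_mul (by positivity),
    ENNReal.ofReal_le_ofReal_iff (by positivity)] at h3
  rw [le_div_iff₀ hr]
  have hsp1 : √π ≤ π := by
    have h5 : (1 : ℝ) ≤ √π := by
      rw [Real.one_le_sqrt]
      linarith [Real.pi_gt_three]
    have h6 := Real.sq_sqrt hp.le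
    nlinarith
  have h4 : r * √(π * A) ≤ π * (r * √A) := by
    rw [Real.sqrt_mul hp.le]
    have : √π * (r * √A) ≤ π * (r * √A) := mul_le_mul_of_nonneg_right hsp1 (by positivity)
    linarith
  have h5 : π ^ 3 * (r * (gg P Q z * r)) ≤ π ^ 3 * (r * (1936 * √A)) := by
    have h6 : 22 * π * (22 * π * (r * √(π * A))) ≤ 22 * π * (22 * π * (π * (r * √A))) := by gcongr
    nlinarith
  have h6 := le_of_mul_le_mul_left h5 (by positivity)
  exact le_of_mul_le_mul_left h6 hr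

end Run7.h748.Mob
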