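import Mathlib

/-!
# The spherical measure on the plane: caps and the mean of the inverse of the chordal distance
-/

set_option autoImplicit false

open MeasureTheory Metric Set Complex Filter Topology
open scoped ENNReal Real

namespace Run7.h748.Mob

/-- the spherical measure of the plane (total mass `π`) -/
noncomputable def sph : Measure ℂ :=
  (volume : Measure ℂ).withDensity fun z => ENNReal.ofReal (1 / (1 + ‖z‖ ^ 2) ^ 2)

theorem dens_meas : Measurable fun z : ℂ => ENNReal.ofReal (1 / (1 + ‖z‖ ^ 2) ^ 2) := by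
  fun_prop

instance : SFinite sph := by unfold sph; infer_instance

theorem hasDeriv_prim (y : ℝ) : HasDerivAt (fun r : ℝ => -(1 / (2 * (1 + r ^ 2))))
    (y * (1 / (1 + y ^ 2) ^ 2)) y := by
  have h1 : HasDerivAt (fun r : ℝ => 2 * (1 + r ^ 2)) (2 * (2 * y)) y := by
    have := ((hasDerivAt_pow 2 y).const_add 1).const_mul 2
    simpa using this
  have h2 : (2 * (1 + y ^ 2)) ≠ 0 := by positivity
  have h3 := (h1.inv h2).neg
  have e : (fun r : ℝ => -(1 / (2 * (1 + r ^ 2)))) = fun r : ℝ => -(2 * (1 + r ^ 2))⁻¹ := by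
    funext r
    rw [one_div]
  rw [e]
  refine h3.congr_deriv ?_
  field_simp

theorem prim_tend : Tendsto (fun r : ℝ => -(1 / (2 * (1 + r ^ 2)))) atTop (𝓝 0) := by
  have h1 : Tendsto (fun r : ℝ => 2 * (1 + r ^ 2)) atTop atTop := by
    have : Tendsto (fun r : ℝ => r ^ 2) atTop atTop := tendsto_pow_atTop (by norm_num)
    exact (tendsto_atTop_add_const_left _ 1 this).const_mul_atTop (by norm_num)
  have h2 := (tendsto_inv_atTop_zero.comp h1).neg
  rw [neg_zero] at h2
  refine h2.congr fun r => ?_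
  simp [Function.comp]

theorem sph_tail {ρ : ℝ} (hρ : 0 ≤ ρ) : sph {z | ρ ≤ ‖z‖} = ENNReal.ofReal (π / (1 + ρ ^ 2)) := by
  have hp := Real.pi_pos
  have hm : MeasurableSet {z : ℂ | ρ ≤ ‖z‖} := measurableSet_le measurable_const measurable_norm
  set f : ℝ → ℝ := fun y => 1 / (1 + y ^ 2) ^ 2 with hf
  set G : ℝ → ℝ := (Ici ρ).indicator f with hG
  have hd : ∀ x ∈ Ici ρ, HasDerivAt (fun r : ℝ => -(1 / (2 * (1 + r ^ 2)))) (x * f x) x :=
    fun x _ => hasDeriv_prim x
  have hn : ∀ x ∈ Ioi ρ, 0 ≤ x * f x := fun x hx => by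
    have : 0 ≤ x := hρ.trans (le_of_lt hx)
    simp only [hf]
    positivity
  have i1 := integrableOn_Ioi_deriv_of_nonneg' hd hn prim_tend
  have i2 := integral_Ioi_of_hasDerivAt_of_nonneg' hd hn prim_tend
  have hGi : ∀ y : ℝ, y ^ (2 - 1) • G y = (Ici ρ).indicator (fun y => y * f y) y := by
    intro y
    simp only [hG, indicator]
    split_ifs <;> simp
  have e0 : (fun y : ℝ => y ^ (2 - 1) • G y) = (Ici ρ).indicator (fun y => y * f y) := funext hGi
  have hae : (Ioi (0 : ℝ) ∩ Ici ρ : Set ℝ) =ᵐ[volume] Ioi ρ := by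
    have h1 : (Ioi (0 : ℝ) ∩ Ioi ρ : Set ℝ) = Ioi ρ := by
      rw [Ioi_inter_Ioi, max_eq_right hρ]
    rw [← h1]
    exact (ae_eq_refl _).inter Ioi_ae_eq_Ici.symm
  have j1 : IntegrableOn (fun y : ℝ => y ^ (2 - 1) • G y) (Ioi 0) := by
    rw [e0, IntegrableOn, integrable_indicator_iff measurableSet_Ici, IntegrableOn,
      Measure.restrict_restrict measurableSet_Ici, inter_comm]
    exact (integrableOn_congr_set_ae hae).2 i1
  have j2 : ∫ y in Ioi (0 : ℝ), y ^ (2 - 1) • G y = 1 / (2 * (1 + ρ ^ 2)) := by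
    rw [e0, integral_indicator measurableSet_Ici, Measure.restrict_restrict measurableSet_Ici,
      inter_comm, setIntegral_congr_set hae, i2]
    ring
  have k1 : Integrable (fun z : ℂ => G ‖z‖) := by
    rw [integrable_fun_norm_addHaar, Complex.finrank_real_complex]
    exact j1
  have k2 : ∫ z : ℂ, G ‖z‖ = π / (1 + ρ ^ 2) := by
    rw [integral_fun_norm_addHaar, Complex.finrank_real_complex, j2, Measure.real, Complex.volume_ball]
    simp only [nsmul_eq_mul, smul_eq_mul, ENNReal.ofReal_one, one_pow, one_mul, ENNReal.coe_toReal,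
      NNReal.coe_real_pi]
    push_cast
    field_simp
  rw [sph, withDensity_apply _ hm, ← lintegral_indicator hm, ← k2,
    ofReal_integral_eq_lintegral_ofReal k1 (Eventually.of_forall fun z => ?_)]
  · refine lintegral_congr fun z => ?_
    simp only [indicator, hG, mem_ofPred_eq, mem_Ici, hf]
    split_ifs <;> simp
  · simp only [hG, indicator, hf, Pi.zero_apply]
    split_ifs <;> positivity

theorem sph_univ : sph univ = ENNReal.ofReal π := by
  have := sph_tail (ρ := 0) le_rfl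
  simpa using this

instance : IsFiniteMeasure sph := ⟨by rw [sph_univ]; exact ENNReal.ofReal_lt_top⟩

theorem sph_le_of_ball {S : Set ℂ} {x : ℂ} {r B : ℝ} (hB : 0 ≤ B) (hr : 0 ≤ r)
    (h1 : S ⊆ closedBall x r) (h2 : ∀ z ∈ S, 1 / (1 + ‖z‖ ^ 2) ^ 2 ≤ B) :
    sph S ≤ ENNReal.ofReal (B * π * r ^ 2) := by
  have hp := Real.pi_pos
  set T : Set ℂ := closedBall x r ∩ {z | 1 / (1 + ‖z‖ ^ 2) ^ 2 ≤ B} with hT
  have hTm : MeasurableSet T := measurableSet_closedBall.inter
    (measurableSet_le (by fun_prop) measurable_const)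
  calc sph S ≤ sph T := measure_mono fun z hz => ⟨h1 hz, h2 z hz⟩
    _ = ∫⁻ z in T, ENNReal.ofReal (1 / (1 + ‖z‖ ^ 2) ^ 2) := by
        rw [sph, withDensity_apply _ hTm]
    _ ≤ ∫⁻ z in T, ENNReal.ofReal B :=
        setLIntegral_mono' hTm fun z hz => ENNReal.ofReal_le_ofReal hz.2
    _ = ENNReal.ofReal B * volume T := by rw [setLIntegral_const]
    _ ≤ ENNReal.ofReal B * volume (closedBall x r) := by
        gcongr
        exact inter_subset_left
    _ = ENNReal.ofReal (B * π * r ^ 2) := by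
        rw [Complex.volume_closedBall, ← ENNReal.ofReal_pow hr, ← ENNReal.ofReal_coe_nnreal,
          NNReal.coe_real_pi, ← ENNReal.ofReal_mul (by positivity), ← ENNReal.ofReal_mul hB]
        congr 1
        ring

/-- the length of the vector `(z, 1)` -/
noncomputable def bb (z : ℂ) : ℝ := √(1 + ‖z‖ ^ 2)

theorem bb_pos (z : ℂ) : 0 < bb z := Real.sqrt_pos.2 (by positivity)

theorem bb_sq (z : ℂ) : bb z ^ 2 = 1 + ‖z‖ ^ 2 := Real.sq_sqrt (by positivity)

theorem one_le_bb (z : ℂ) : 1 ≤ bb z := by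
  rw [bb, Real.one_le_sqrt]
  nlinarith [sq_nonneg ‖z‖]

theorem bb_le (x z : ℂ) : bb x ≤ bb z + ‖x - z‖ := by
  have h1 := bb_pos z
  have h2 : ‖x‖ ≤ ‖z‖ + ‖x - z‖ := by
    have := norm_add_le z (x - z)
    rwa [add_sub_cancel] at this
  have h3 : ‖z‖ ≤ bb z := by
    rw [bb]
    refine Real.le_sqrt_of_sq_le ?_
    linarith
  rw [bb, Real.sqrt_le_left (by positivity)]
  have h4 := bb_sq z
  have h5 : ‖x‖ ^ 2 ≤ (‖z‖ + ‖x - z‖) ^ 2 := pow_le_pow_left₀ (norm_nonneg _) h2 2
  nlinarith [norm_nonneg (x - z), norm_nonneg z, mul_le_mul_of_nonneg_right h3 (norm_nonneg (x - z))]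

/-- the cross product with the vector `(q, 1)` -/
noncomputable def crq (y : ℂ × ℂ) (q : ℂ) : ℂ := y.1 - q * y.2

/-- the length of a vector -/
noncomputable def nn (y : ℂ × ℂ) : ℝ := √(‖y.1‖ ^ 2 + ‖y.2‖ ^ 2)

theorem nn_nonneg (y : ℂ × ℂ) : 0 ≤ nn y := Real.sqrt_nonneg _

theorem nn_sq (y : ℂ × ℂ) : nn y ^ 2 = ‖y.1‖ ^ 2 + ‖y.2‖ ^ 2 := Real.sq_sqrt (by positivity)

theorem nn_pos {y : ℂ × ℂ} (h : y ≠ 0) : 0 < nn y := by
  refine Real.sqrt_pos.2 ?_
  by_contra hcon
  have h1 : ‖y.1‖ = 0 := by nlinarith [sq_nonneg ‖y.1‖, sq_nonneg ‖y.2‖, norm_nonneg y.1]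
  have h2 : ‖y.2‖ = 0 := by nlinarith [sq_nonneg ‖y.1‖, sq_nonneg ‖y.2‖, norm_nonneg y.2]
  exact h (Prod.ext (norm_eq_zero.1 h1) (norm_eq_zero.1 h2))

theorem crq_le (y : ℂ × ℂ) (q : ℂ) : ‖crq y q‖ ≤ nn y * bb q := by
  have h1 : ‖crq y q‖ ≤ ‖y.1‖ + ‖q‖ * ‖y.2‖ := by
    unfold crq
    calc ‖y.1 - q * y.2‖ ≤ ‖y.1‖ + ‖q * y.2‖ := norm_sub_le _ _
      _ = _ := by rw [norm_mul]
  refine h1.trans ?_
  rw [nn, bb, ← Real.sqrt_mul (by positivity)]
  refine Real.le_sqrt_of_sq_le ?_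
  nlinarith [sq_nonneg (‖y.2‖ - ‖q‖ * ‖y.1‖)]

/-- **The measure of a cap.** -/
theorem cap {y : ℂ × ℂ} (hy : y ≠ 0) {t : ℝ} (ht : 0 < t) :
    sph {q | ‖crq y q‖ ≤ t * (nn y * bb q)} ≤ ENNReal.ofReal (21 * π * t ^ 2) := by
  have hp := Real.pi_pos
  have hn := nn_pos hy
  have hn2 := nn_sq y
  by_cases hfar : 2 * t * nn y ≤ ‖y.2‖
  · -- away from infinity
    have hy2 : 0 < ‖y.2‖ := lt_of_lt_of_le (by positivity) hfar
    have hy2' : y.2 ≠ 0 := norm_pos_iff.1 hy2
    set x : ℂ := y.1 / y.2 with hx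
    set a : ℝ := bb x with ha
    have ha0 : 0 < a := bb_pos x
    have ea : nn y = a * ‖y.2‖ := by
      have h1 : (a * ‖y.2‖) ^ 2 = nn y ^ 2 := by
        rw [mul_pow, ha, bb_sq, hn2, hx, norm_div]
        field_simp
        ring
      exact ((pow_left_inj₀ (by positivity) hn.le (by norm_num)).1 h1).symm
    have hta : t * a ≤ 1 / 2 := by
      rw [ea] at hfar
      have : 2 * t * a * ‖y.2‖ ≤ 1 * ‖y.2‖ := by linarith
      have := le_of_mul_le_mul_right this hy2
      linarith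
    have hq : ∀ q ∈ {q | ‖crq y q‖ ≤ t * (nn y * bb q)}, ‖x - q‖ ≤ t * a * bb q := by
      intro q hq
      have h1 : crq y q = y.2 * (x - q) := by
        rw [crq, hx]
        field_simp
      have h2 : ‖crq y q‖ ≤ t * (nn y * bb q) := hq
      rw [h1, norm_mul, ea] at h2
      have h3 : ‖y.2‖ * ‖x - q‖ ≤ ‖y.2‖ * (t * a * bb q) := by linarith
      exact le_of_mul_le_mul_left h3 hy2
    have hb : ∀ q ∈ {q | ‖crq y q‖ ≤ t * (nn y * bb q)}, bb q ≤ 2 * a ∧ a ≤ 3 / 2 * bb q := by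
      intro q hq'
      have h1 := hq q hq'
      have h2 := bb_le q x
      have h3 := bb_le x q
      rw [norm_sub_rev] at h2
      have h4 : t * a * bb q ≤ 1 / 2 * bb q := mul_le_mul_of_nonneg_right hta (bb_pos q).le
      constructor <;> linarith
    refine (sph_le_of_ball (x := x) (r := 2 * t * a ^ 2) (B := 81 / (16 * a ^ 4)) (by positivity)
      (by positivity) (fun q hq' => ?_) (fun q hq' => ?_)).trans (ENNReal.ofReal_le_ofReal ?_)
    · rw [mem_closedBall, dist_eq_norm, norm_sub_rev]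
      refine (hq q hq').trans ?_
      have := mul_le_mul_of_nonneg_left (hb q hq').1 (show 0 ≤ t * a by positivity)
      linarith
    · rw [← bb_sq, div_le_div_iff₀ (by have := bb_pos q; positivity) (by positivity)]
      have h1 := (hb q hq').2
      have h2 := pow_le_pow_left₀ ha0.le h1 4
      have h3 := bb_pos q
      nlinarith
    · have e : 81 / (16 * a ^ 4) * π * (2 * t * a ^ 2) ^ 2 = 81 / 4 * π * t ^ 2 := by
        field_simp
        ring
      rw [e]
      have : 0 < π * t ^ 2 := by positivity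
      nlinarith
  · push Not at hfar
    by_cases ht4 : 1 / 4 < t
    · calc sph {q | ‖crq y q‖ ≤ t * (nn y * bb q)} ≤ sph univ := measure_mono (subset_univ _)
        _ = ENNReal.ofReal π := sph_univ
        _ ≤ _ := by
          refine ENNReal.ofReal_le_ofReal ?_
          have : 1 ≤ 21 * t ^ 2 := by nlinarith
          nlinarith
    · push Not at ht4
      -- near infinity
      have hy1 : 3 / 4 * nn y ^ 2 ≤ ‖y.1‖ ^ 2 := by
        have h1 : ‖y.2‖ ^ 2 ≤ (2 * t * nn y) ^ 2 := pow_le_pow_left₀ (norm_nonneg _) hfar.le 2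
        have h2 : (2 * t) ^ 2 ≤ 1 / 4 := by nlinarith
        have h3 : (2 * t * nn y) ^ 2 = (2 * t) ^ 2 * nn y ^ 2 := by ring
        have h4 := mul_le_mul_of_nonneg_right h2 (sq_nonneg (nn y))
        linarith
      have hsub : {q | ‖crq y q‖ ≤ t * (nn y * bb q)} ⊆
          {q | √(1 / (12 * t ^ 2) - 1) ≤ ‖q‖} := by
        intro q hq
        have hq' : ‖crq y q‖ ≤ t * (nn y * bb q) := hq
        have hbq := bb_pos q
        have h1 : ‖y.1‖ ≤ ‖crq y q‖ + ‖q‖ * ‖y.2‖ := by
          have : y.1 = crq y q + q * y.2 := by rw [crq]; ring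
          calc ‖y.1‖ = ‖crq y q + q * y.2‖ := by rw [← this]
            _ ≤ ‖crq y q‖ + ‖q * y.2‖ := norm_add_le _ _
            _ = _ := by rw [norm_mul]
        have h2 : ‖q‖ ≤ bb q := by
          rw [bb]
          refine Real.le_sqrt_of_sq_le ?_
          linarith
        have h3 : ‖q‖ * ‖y.2‖ ≤ bb q * (2 * t * nn y) :=
          mul_le_mul h2 hfar.le (norm_nonneg _) hbq.le
        have h4 : ‖y.1‖ ≤ 3 * t * nn y * bb q := by linarith
        have h5 := pow_le_pow_left₀ (norm_nonneg _) h4 2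
        have h6 : 3 / 4 * nn y ^ 2 ≤ (9 * t ^ 2 * bb q ^ 2) * nn y ^ 2 := by
          calc 3 / 4 * nn y ^ 2 ≤ ‖y.1‖ ^ 2 := hy1
            _ ≤ (3 * t * nn y * bb q) ^ 2 := h5
            _ = _ := by ring
        have h7 := le_of_mul_le_mul_right h6 (by positivity)
        rw [bb_sq] at h7
        show √(1 / (12 * t ^ 2) - 1) ≤ ‖q‖
        refine Real.sqrt_le_iff.2 ⟨norm_nonneg _, ?_⟩
        rw [sub_le_iff_le_add, div_le_iff₀ (by positivity)]
        linarith
      refine (measure_mono hsub).trans ?_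
      rw [sph_tail (Real.sqrt_nonneg _)]
      refine ENNReal.ofReal_le_ofReal ?_
      have h8 : 1 / (12 * t ^ 2) - 1 ≤ √(1 / (12 * t ^ 2) - 1) ^ 2 := by
        rcases le_total 0 (1 / (12 * t ^ 2) - 1) with h | h
        · rw [Real.sq_sqrt h]
        · exact h.trans (sq_nonneg _)
      have h9 : 1 / (12 * t ^ 2) ≤ 1 + √(1 / (12 * t ^ 2) - 1) ^ 2 := by linarith
      calc π / (1 + √(1 / (12 * t ^ 2) - 1) ^ 2) ≤ π / (1 / (12 * t ^ 2)) :=
            div_le_div_of_nonneg_left hp.le (by positivity) h9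
        _ = 12 * π * t ^ 2 := by field_simp
        _ ≤ _ := by
          have : 0 < π * t ^ 2 := by positivity
          nlinarith

/-- the inverse of the chordal distance -/
noncomputable def DD (y : ℂ × ℂ) (q : ℂ) : ℝ := nn y * bb q / ‖crq y q‖

theorem DD_nonneg (y : ℂ × ℂ) (q : ℂ) : 0 ≤ DD y q := by
  unfold DD
  exact div_nonneg (mul_nonneg (nn_nonneg _) (bb_pos _).le) (norm_nonneg _)

theorem bb_cont : Continuous bb := by unfold bb; fun_prop

theorem nn_cont : Continuous nn := by unfold nn; fun_prop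

theorem crq_cont : Continuous fun x : (ℂ × ℂ) × ℂ => crq x.1 x.2 := by unfold crq; fun_prop

theorem DD_meas : Measurable fun x : (ℂ × ℂ) × ℂ => DD x.1 x.2 := by
  unfold DD
  exact ((nn_cont.measurable.comp measurable_fst).mul (bb_cont.measurable.comp measurable_snd)).div
    crq_cont.norm.measurable

theorem DD_meas_right (y : ℂ × ℂ) : Measurable fun q => DD y q := by
  have h1 : Measurable fun q : ℂ => nn y * bb q := bb_cont.measurable.const_mul _
  have h2 : Continuous fun q : ℂ => ‖crq y q‖ := by unfold crq; fun_prop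
  exact h1.div h2.measurable

/-- **The mean of the inverse of the chordal distance.** -/
theorem invd {y : ℂ × ℂ} (hy : y ≠ 0) : ∫⁻ q, ENNReal.ofReal (DD y q) ∂sph ≤ ENNReal.ofReal (22 * π) := by
  have hp := Real.pi_pos
  have hm : Measurable fun q => DD y q := DD_meas_right y
  rw [lintegral_eq_lintegral_meas_lt sph (Eventually.of_forall fun q => DD_nonneg y q) hm.aemeasurable]
  have hsplit : (Ioi (0 : ℝ)) = Ioc 0 1 ∪ Ioi 1 := (Ioc_union_Ioi_eq_Ioi zero_le_one).symm
  rw [hsplit, lintegral_union measurableSet_Ioi (by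
    rw [Set.disjoint_left]
    intro x h1 h2
    exact absurd h1.2 (not_le.2 h2))]
  have h1 : ∫⁻ t in Ioc (0 : ℝ) 1, sph {q | t < DD y q} ≤ ENNReal.ofReal π := by
    calc ∫⁻ t in Ioc (0 : ℝ) 1, sph {q | t < DD y q} ≤ ∫⁻ t in Ioc (0 : ℝ) 1, ENNReal.ofReal π :=
          lintegral_mono fun t => (measure_mono (subset_univ _)).trans sph_univ.le
      _ = ENNReal.ofReal π := by
          rw [setLIntegral_const, Real.volume_Ioc]
          simp
  have hr1 : IntegrableOn (fun t : ℝ => 21 * π * t ^ (-2 : ℝ)) (Ioi 1) :=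
    (integrableOn_Ioi_rpow_of_lt (a := -2) (by norm_num) one_pos).const_mul _
  have hr2 : ∫ t in Ioi (1 : ℝ), 21 * π * t ^ (-2 : ℝ) = 21 * π := by
    have h0 := integral_Ioi_rpow_of_lt (a := -2) (by norm_num) one_pos
    rw [integral_const_mul, h0]
    norm_num
  have h2 : ∫⁻ t in Ioi (1 : ℝ), sph {q | t < DD y q} ≤ ENNReal.ofReal (21 * π) := by
    rw [← hr2, ofReal_integral_eq_lintegral_ofReal hr1 ((ae_restrict_mem measurableSet_Ioi).mono
      fun t ht => by
        have : (0 : ℝ) < t := lt_trans one_pos ht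
        simp only [Pi.zero_apply]
        positivity)]
    refine setLIntegral_mono' measurableSet_Ioi fun t ht => ?_
    have ht0 : (0 : ℝ) < t := lt_trans one_pos ht
    have hsub : {q | t < DD y q} ⊆ {q | ‖crq y q‖ ≤ 1 / t * (nn y * bb q)} := by
      intro q hq
      have hq' : t < nn y * bb q / ‖crq y q‖ := hq
      have hc : 0 < ‖crq y q‖ := by
        by_contra hcon
        have h0 : ‖crq y q‖ = 0 := le_antisymm (not_lt.1 hcon) (norm_nonneg _)
        rw [h0, div_zero] at hq'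
        exact absurd hq' (not_lt.2 ht0.le)
      rw [lt_div_iff₀ hc] at hq'
      show ‖crq y q‖ ≤ 1 / t * (nn y * bb q)
      rw [div_mul_eq_mul_div, one_mul, le_div_iff₀ ht0]
      linarith
    refine (measure_mono hsub).trans ((cap hy (by positivity)).trans (ENNReal.ofReal_le_ofReal ?_))
    rw [Real.rpow_neg ht0.le, Real.rpow_two, one_div, inv_pow]
  calc _ ≤ ENNReal.ofReal π + ENNReal.ofReal (21 * π) := add_le_add h1 h2
    _ = ENNReal.ofReal (22 * π) := by
        rw [← ENNReal.ofReal_add hp.le (by positivity)]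
        congr 1
        ring

end Run7.h748.Mob
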